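import Mathlib

namespace Pool.Agent.Lib.MP_63c928_gt

variable {Γ : Type} [Group Γ]

/-- conjugation -/
def cj (g x : Γ) : Γ := g * x * g⁻¹

theorem cj_one (x : Γ) : cj 1 x = x := by simp [cj]

theorem cj_cj (g h x : Γ) : cj g (cj h x) = cj (g * h) x := by simp only [cj]; group

theorem cj_inv_cj (g x : Γ) : cj g⁻¹ (cj g x) = x := by simp only [cj]; group

theorem cj_cj_inv (g x : Γ) : cj g (cj g⁻¹ x) = x := by simp only [cj]; group

theorem cj_inv (g x : Γ) : cj g x⁻¹ = (cj g x)⁻¹ := by simp only [cj]; group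

theorem cj_inj {g x y : Γ} (h : cj g x = cj g y) : x = y := by
  rw [← cj_inv_cj g x, h, cj_inv_cj]

theorem cj_pow_cj (g c b : Γ) (k : ℕ) : cj ((cj g c) ^ k) (cj g b) = cj g (cj (c ^ k) b) := by
  simp only [cj, conj_pow]; group

theorem cj_pow_fix {c b : Γ} (h : cj c b = b) (k : ℕ) : cj (c ^ k) b = b := by
  induction k with
  | zero => simp [cj_one]
  | succ k ih => rw [pow_succ, ← cj_cj, h, ih]

theorem cj_pow_add (c b : Γ) (k l : ℕ) : cj (c ^ (k + l)) b = cj (c ^ k) (cj (c ^ l) b) := by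
  rw [cj_cj, pow_add]

/-- a conjugation invariant asymmetric relation -/
structure COrd (Γ : Type) [Group Γ] where
  lt : Γ → Γ → Prop
  asymm : ∀ {a b}, lt a b → lt b a → False
  conj : ∀ g {a b}, lt a b → lt (cj g a) (cj g b)

/-- conjugates of the other elements by the first `m` powers of `c` -/
def infl (c : Γ) (P : Set Γ) (m : ℕ) : Set Γ :=
  {x | ∃ b ∈ P, b ≠ c ∧ ∃ k < m, x = cj (c ^ k) b}

theorem infl_mono {c : Γ} {P Q : Set Γ} (h : P ⊆ Q) {m n : ℕ} (hm : m ≤ n) :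
    infl c P m ⊆ infl c Q n := by
  rintro x ⟨b, hb, hc, k, hk, rfl⟩
  exact ⟨b, h hb, hc, k, by omega, rfl⟩

theorem sub_infl {c : Γ} {P A : Set Γ} (h : P ⊆ A) (hc : c ∉ P) (m : ℕ) :
    P ⊆ infl c A (m + 1) := fun b hb =>
  ⟨b, h hb, fun e => hc (e ▸ hb), 0, by omega, by simp [cj_one]⟩

theorem infl_shift (c : Γ) (P : Set Γ) (m : ℕ) : cj c '' infl c P m ⊆ infl c P (m + 1) := by
  rintro _ ⟨x, ⟨b, hb, hc, k, hk, rfl⟩, rfl⟩
  exact ⟨b, hb, hc, k + 1, by omega, by rw [cj_cj, pow_succ']⟩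

theorem infl_conj (g c : Γ) (P : Set Γ) (m : ℕ) :
    infl (cj g c) (cj g '' P) m = cj g '' infl c P m := by
  ext x
  constructor
  · rintro ⟨_, ⟨b, hb, rfl⟩, hc, k, hk, rfl⟩
    exact ⟨_, ⟨b, hb, fun e => hc (by rw [e]), k, hk, rfl⟩, (cj_pow_cj g c b k).symm⟩
  · rintro ⟨_, ⟨b, hb, hc, k, hk, rfl⟩, rfl⟩
    exact ⟨_, ⟨b, hb, rfl⟩, fun e => hc (cj_inj e), k, hk, (cj_pow_cj g c b k).symm⟩

theorem infl_closure {c : Γ} {P : Set Γ} (hc : c ∈ P) (m : ℕ) :
    infl c P m ⊆ Subgroup.closure P := by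
  rintro x ⟨b, hb, -, k, -, rfl⟩
  have h1 : c ^ k ∈ Subgroup.closure P := pow_mem (Subgroup.subset_closure hc) k
  exact mul_mem (mul_mem h1 (Subgroup.subset_closure hb)) (inv_mem h1)

theorem cj_image_inv (g : Γ) (P : Set Γ) : cj g⁻¹ '' (cj g '' P) = P := by
  rw [Set.image_image]; simp [cj_inv_cj]

/-- separation of the levels -/
def Sep (c : Γ) (P : Set Γ) : Prop :=
  ∀ b ∈ P, ∀ b' ∈ P, b ≠ c → b' ≠ c → ∀ j : ℕ, 0 < j → cj (c ^ j) b = b' → cj c b = b

theorem Sep.mono {c : Γ} {P A : Set Γ} (h : Sep c A) (hP : P ⊆ A) : Sep c P :=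
  fun b hb b' hb' => h b (hP hb) b' (hP hb')

theorem Sep.eq_of_lt {c : Γ} {A : Set Γ} (h : Sep c A) {b b' : Γ} (hb : b ∈ A) (hb' : b' ∈ A)
    (hc : b ≠ c) (hc' : b' ≠ c) {k l : ℕ} (hkl : l < k) (e : cj (c ^ k) b = cj (c ^ l) b') :
    cj c b = b ∧ b' = b := by
  obtain ⟨j, rfl⟩ : ∃ j, k = l + j := ⟨k - l, by omega⟩
  rw [cj_pow_add] at e
  have e1 := cj_inj e
  have e2 := h b hb b' hb' hc hc' j (by omega) e1
  exact ⟨e2, by rw [← e1, cj_pow_fix e2]⟩

theorem Sep.inter {c : Γ} {A P Q : Set Γ} (h : Sep c A) (hP : P ⊆ A) (hQ : Q ⊆ A) (m : ℕ) :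
    infl c P m ∩ infl c Q m ⊆ infl c (P ∩ Q) m := by
  rintro x ⟨⟨b, hb, hc, k, hk, rfl⟩, b', hb', hc', l, hl, e⟩
  rcases lt_trichotomy k l with h1 | rfl | h1
  · obtain ⟨-, e2⟩ := h.eq_of_lt (hQ hb') (hP hb) hc' hc h1 e.symm
    exact ⟨b, ⟨hb, e2 ▸ hb'⟩, hc, k, hk, rfl⟩
  · have e2 := cj_inj e
    exact ⟨b, ⟨hb, e2 ▸ hb'⟩, hc, k, hk, rfl⟩
  · obtain ⟨-, e2⟩ := h.eq_of_lt (hP hb) (hQ hb') hc hc' h1 e
    exact ⟨b, ⟨hb, e2 ▸ hb'⟩, hc, k, hk, rfl⟩

theorem Sep.inter' {c : Γ} {A P Q : Set Γ} (h : Sep c A) (hP : P ⊆ A) (hQ : Q ⊆ A) (hc : c ∉ Q)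
    (m : ℕ) : infl c P m ∩ Q ⊆ P ∩ Q := by
  rintro x ⟨⟨b, hb, hc1, k, hk, rfl⟩, hx⟩
  refine ⟨?_, hx⟩
  rcases Nat.eq_zero_or_pos k with rfl | h1
  · simpa [cj_one] using hb
  · have := h b (hP hb) _ (hQ hx) hc1 (fun e => hc (e ▸ hx)) k h1 rfl
    rwa [cj_pow_fix this]

theorem Sep.low {c : Γ} {A P : Set Γ} (h : Sep c A) (hP : P ⊆ A) (m : ℕ) :
    infl c A m ∩ infl c P (m + 1) ⊆ infl c P m := by
  rintro x ⟨⟨b', hb', hc', k, hk, rfl⟩, b, hb, hc, l, hl, e⟩
  by_cases h1 : l < m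
  · exact ⟨b, hb, hc, l, h1, e⟩
  · obtain ⟨-, e2⟩ := h.eq_of_lt (hP hb) hb' hc hc' (by omega : k < l) e.symm
    exact ⟨b', e2 ▸ hb, hc', k, hk, rfl⟩

theorem Sep.high {c : Γ} {A P : Set Γ} (h : Sep c A) (hP : P ⊆ A) (m : ℕ) :
    cj c '' infl c A m ∩ infl c P (m + 1) ⊆ cj c '' infl c P m := by
  rintro x ⟨⟨_, ⟨b', hb', hc', k, hk, rfl⟩, rfl⟩, b, hb, hc, l, hl, e⟩
  rw [cj_cj, ← pow_succ'] at e
  rcases l with _ | l
  · obtain ⟨-, e2⟩ := h.eq_of_lt hb' (hP hb) hc' hc (by omega : 0 < k + 1) e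
    exact ⟨_, ⟨b', e2 ▸ hb, hc', k, hk, rfl⟩, rfl⟩
  · refine ⟨_, ⟨b, hb, hc, l, by omega, rfl⟩, ?_⟩
    rw [cj_cj, cj_cj, ← pow_succ', ← pow_succ', e]

namespace COrd
variable (O : COrd Γ)

def Top (c : Γ) (P : Set Γ) : Prop := c ∈ P ∧ ∀ b ∈ P, b ≠ c → O.lt b c

/-- sets for which the inflation process terminates -/
inductive Term : Set Γ → Prop
  | empty : Term ∅
  | step {P : Set Γ} {c : Γ} : O.Top c P →
      (∀ (m : ℕ) (j : ℤ), c ^ j ∈ Subgroup.closure (infl c P m) → j = 0) → Sep c P →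
      (∀ m, Term (infl c P m)) → Term P

/-- letters -/
inductive Let (N : ℕ) : Set Γ → Γ → Prop
  | pos {P : Set Γ} {c : Γ} : O.Top c P → Let N P c
  | neg {P : Set Γ} {c : Γ} : O.Top c P → Let N P c⁻¹
  | step {P : Set Γ} {c e : Γ} : O.Top c P → Let N (infl c P (N + 1)) e → Let N P e

/-- squares -/
inductive Big (N : ℕ) : Set Γ → Γ → Γ → Prop
  | pos {P : Set Γ} {c y : Γ} : O.Top c P → O.Let N (infl c P N) y → Big N P c (cj c y)
  | neg {P : Set Γ} {c y : Γ} : O.Top c P → O.Let N (infl c P N) y → Big N P c⁻¹ y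
  | step {P : Set Γ} {c x y : Γ} : O.Top c P → Big N (infl c P (N + 1)) x y → Big N P x y

variable {O}

theorem Top.unique {c c' : Γ} {P : Set Γ} (h : O.Top c P) (h' : O.Top c' P) : c' = c := by
  by_contra e
  exact O.asymm (h.2 c' h'.1 e) (h'.2 c h.1 (Ne.symm e))

theorem Top.mono {c : Γ} {P A : Set Γ} (h : O.Top c A) (hP : P ⊆ A) (hc : c ∈ P) : O.Top c P :=
  ⟨hc, fun b hb => h.2 b (hP hb)⟩

theorem Top.conj {c : Γ} {P : Set Γ} (h : O.Top c P) (g : Γ) : O.Top (cj g c) (cj g '' P) := by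
  refine ⟨⟨c, h.1, rfl⟩, ?_⟩
  rintro _ ⟨b, hb, rfl⟩ e
  exact O.conj g (h.2 b hb fun e' => e (by rw [e']))

theorem Term.subset {A : Set Γ} (h : O.Term A) : ∀ {P : Set Γ}, P ⊆ A → O.Term P := by
  induction h with
  | empty => intro P hP; rw [Set.subset_empty_iff.1 hP]; exact Term.empty
  | @step A c ht h3 h4 _ ih =>
    intro P hP
    by_cases hc : c ∈ P
    · exact Term.step (ht.mono hP hc)
        (fun m j hj => h3 m j (Subgroup.closure_mono (infl_mono hP le_rfl) hj)) (h4.mono hP)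
        fun m => ih m (infl_mono hP le_rfl)
    · exact ih 1 (sub_infl hP hc 0)

variable {N : ℕ}

theorem Let.not_empty {x : Γ} : ¬ O.Let N ∅ x := by
  intro h
  cases h with
  | pos h => exact h.1
  | neg h => exact h.1
  | step h _ => exact h.1

theorem Big.not_empty {x y : Γ} : ¬ O.Big N ∅ x y := by
  intro h
  cases h with
  | pos h => exact h.1
  | neg h => exact h.1
  | step h _ => exact h.1

theorem Let.cases {c x : Γ} {P : Set Γ} (ht : O.Top c P) (h : O.Let N P x) :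
    x = c ∨ x = c⁻¹ ∨ O.Let N (infl c P (N + 1)) x := by
  cases h with
  | pos h => exact Or.inl (ht.unique h)
  | neg h => exact Or.inr (Or.inl (by rw [ht.unique h]))
  | step h h' => rw [ht.unique h] at h'; exact Or.inr (Or.inr h')

theorem Big.cases {c x y : Γ} {P : Set Γ} (ht : O.Top c P) (h : O.Big N P x y) :
    (x = c ∧ ∃ y0, O.Let N (infl c P N) y0 ∧ y = cj c y0) ∨
      (x = c⁻¹ ∧ O.Let N (infl c P N) y) ∨ O.Big N (infl c P (N + 1)) x y := by
  cases h with
  | pos h h' =>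
    have := ht.unique h
    subst this
    exact Or.inl ⟨rfl, _, h', rfl⟩
  | neg h h' =>
    have := ht.unique h
    subst this
    exact Or.inr (Or.inl ⟨rfl, h'⟩)
  | step h h' => rw [ht.unique h] at h'; exact Or.inr (Or.inr h')

theorem Let.inv {x : Γ} {P : Set Γ} (h : O.Let N P x) : O.Let N P x⁻¹ := by
  induction h with
  | pos h => exact Let.neg h
  | neg h => rw [inv_inv]; exact Let.pos h
  | step h _ ih => exact Let.step h ih

theorem Let.mem_closure {x : Γ} {P : Set Γ} (h : O.Let N P x) : x ∈ Subgroup.closure P := by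
  induction h with
  | pos h => exact Subgroup.subset_closure h.1
  | neg h => exact inv_mem (Subgroup.subset_closure h.1)
  | step h _ ih => exact (Subgroup.closure_le _).2 (infl_closure h.1 _) ih

theorem Let.conj {x : Γ} {P : Set Γ} (h : O.Let N P x) (g : Γ) :
    O.Let N (cj g '' P) (cj g x) := by
  induction h with
  | pos h => exact Let.pos (h.conj g)
  | neg h => rw [cj_inv]; exact Let.neg (h.conj g)
  | step h _ ih => exact Let.step (h.conj g) (by rw [infl_conj]; exact ih)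

theorem Big.conj {x y : Γ} {P : Set Γ} (h : O.Big N P x y) (g : Γ) :
    O.Big N (cj g '' P) (cj g x) (cj g y) := by
  induction h with
  | @pos P c y h h' =>
    have e : cj g (cj c y) = cj (cj g c) (cj g y) := by simp only [cj]; group
    rw [e]
    exact Big.pos (h.conj g) (by rw [infl_conj]; exact h'.conj g)
  | neg h h' => rw [cj_inv]; exact Big.neg (h.conj g) (by rw [infl_conj]; exact h'.conj g)
  | step h _ ih => exact Big.step (h.conj g) (by rw [infl_conj]; exact ih)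

theorem Big.inv_right {x y : Γ} {P : Set Γ} (h : O.Big N P x y) : O.Big N P x y⁻¹ := by
  induction h with
  | pos h h' => rw [← cj_inv]; exact Big.pos h h'.inv
  | neg h h' => exact Big.neg h h'.inv
  | step h _ ih => exact Big.step h ih

theorem Big.rot {x y : Γ} {P : Set Γ} (h : O.Big N P x y) : O.Big N P x⁻¹ (cj x⁻¹ y) := by
  induction h with
  | pos h h' => rw [cj_inv_cj]; exact Big.neg h h'
  | neg h h' => rw [inv_inv]; exact Big.pos h h'
  | step h _ ih => exact Big.step h ih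

theorem Let.mono {A : Set Γ} (h : O.Term A) :
    ∀ {P : Set Γ} {x : Γ}, P ⊆ A → O.Let N P x → O.Let N A x := by
  induction h with
  | empty => intro P x hP hx; rwa [Set.subset_empty_iff.1 hP] at hx
  | @step A c ht _ _ _ ih =>
    intro P x hP hx
    by_cases hc : c ∈ P
    · rcases hx.cases (ht.mono hP hc) with rfl | rfl | h1
      · exact Let.pos ht
      · exact Let.neg ht
      · exact Let.step ht (ih _ (infl_mono hP le_rfl) h1)
    · exact Let.step ht (ih _ (sub_infl hP hc N) hx)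

theorem Big.mono {A : Set Γ} (h : O.Term A) :
    ∀ {P : Set Γ} {x y : Γ}, P ⊆ A → O.Big N P x y → O.Big N A x y := by
  induction h with
  | empty => intro P x y hP hx; rwa [Set.subset_empty_iff.1 hP] at hx
  | @step A c ht _ _ hT ih =>
    intro P x y hP hx
    by_cases hc : c ∈ P
    · rcases hx.cases (ht.mono hP hc) with ⟨rfl, y0, h1, rfl⟩ | ⟨rfl, h1⟩ | h1
      · exact Big.pos ht (Let.mono (hT _) (infl_mono hP le_rfl) h1)
      · exact Big.neg ht (Let.mono (hT _) (infl_mono hP le_rfl) h1)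
      · exact Big.step ht (ih _ (infl_mono hP le_rfl) h1)
    · exact Big.step ht (ih _ (sub_infl hP hc N) hx)

theorem Let.self {A : Set Γ} (h : O.Term A) : ∀ {x : Γ}, x ∈ A → O.Let N A x := by
  induction h with
  | empty => intro x hx; exact hx.elim
  | @step A c ht _ _ _ ih =>
    intro x hx
    by_cases e : x = c
    · rw [e]; exact Let.pos ht
    · exact Let.step ht (ih _ ⟨x, hx, e, 0, by omega, by simp [cj_one]⟩)

theorem Let.finite {A : Set Γ} (h : O.Term A) : {x | O.Let N A x}.Finite := by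
  induction h with
  | empty => simp [Let.not_empty]
  | @step A c ht _ _ _ ih =>
    refine (((ih (N + 1)).insert c⁻¹).insert c).subset fun x hx => ?_
    simpa using Let.cases ht hx

theorem ne_top {c x : Γ} {A : Set Γ} {m : ℕ}
    (h3 : ∀ (m : ℕ) (j : ℤ), c ^ j ∈ Subgroup.closure (infl c A m) → j = 0)
    (h : O.Let N (infl c A m) x) : x ≠ c ∧ x ≠ c⁻¹ := by
  have h1 := h.mem_closure
  constructor
  · rintro rfl
    exact absurd (h3 m 1 (by simpa using h1)) (by decide)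
  · rintro rfl
    exact absurd (h3 m (-1) (by simpa using h1)) (by decide)

theorem Let.low {c x : Γ} {A P : Set Γ} {m : ℕ} (ht : O.Top c P)
    (h3 : ∀ (m : ℕ) (j : ℤ), c ^ j ∈ Subgroup.closure (infl c A m) → j = 0)
    (h : O.Let N (infl c A m) x) (h' : O.Let N P x) : O.Let N (infl c P (N + 1)) x := by
  rcases h'.cases ht with e | e | h1
  · exact absurd e (ne_top h3 h).1
  · exact absurd e (ne_top h3 h).2
  · exact h1

theorem Let.inter {A : Set Γ} (h : O.Term A) : ∀ {P Q : Set Γ} {x : Γ}, P ⊆ A → Q ⊆ A →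
    O.Let N P x → O.Let N Q x → O.Let N (P ∩ Q) x := by
  induction h with
  | empty => intro P Q x hP _ hx _; rw [Set.subset_empty_iff.1 hP] at hx; exact hx.not_empty.elim
  | @step A c ht h3 h4 hT ih =>
    have hA : O.Term A := Term.step ht h3 h4 hT
    have key : ∀ {P Q : Set Γ} {x : Γ}, P ⊆ A → Q ⊆ A → c ∈ P → c ∉ Q →
        O.Let N P x → O.Let N Q x → O.Let N (P ∩ Q) x := by
      intro P Q x hP hQ hc hc' hx hy
      have h1 := Let.mono (hT _) (sub_infl hQ hc' N) hy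
      have h2 := Let.low (ht.mono hP hc) h3 h1 hx
      exact Let.mono (hA.subset (Set.inter_subset_left.trans hP)) (h4.inter' hP hQ hc' _)
        (ih _ (infl_mono hP le_rfl) (sub_infl hQ hc' N) h2 hy)
    intro P Q x hP hQ hx hy
    by_cases hc : c ∈ P
    · by_cases hc' : c ∈ Q
      · have ht' : O.Top c (P ∩ Q) := ht.mono (Set.inter_subset_left.trans hP) ⟨hc, hc'⟩
        rcases hx.cases (ht.mono hP hc) with rfl | rfl | h1
        · exact Let.pos ht'
        · exact Let.neg ht'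
        · have h0 := Let.mono (hT _) (infl_mono hP le_rfl) h1
          have h2 := Let.low (ht.mono hQ hc') h3 h0 hy
          exact Let.step ht' (Let.mono ((hT _).subset
            (infl_mono (Set.inter_subset_left.trans hP) le_rfl)) (h4.inter hP hQ _)
            (ih _ (infl_mono hP le_rfl) (infl_mono hQ le_rfl) h1 h2))
      · exact key hP hQ hc hc' hx hy
    · by_cases hc' : c ∈ Q
      · rw [Set.inter_comm]; exact key hQ hP hc' hc hy hx
      · exact ih _ (sub_infl hP hc N) (sub_infl hQ hc' N) hx hy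

theorem Let.up0 {c y : Γ} {A : Set Γ} (hT : ∀ m, O.Term (infl c A m)) {m : ℕ}
    (h : O.Let N (infl c A m) y) : O.Let N (infl c A (m + 1)) y :=
  Let.mono (hT _) (infl_mono le_rfl (by omega)) h

theorem Let.up1 {c y : Γ} {A : Set Γ} (hT : ∀ m, O.Term (infl c A m)) {m : ℕ}
    (h : O.Let N (infl c A m) y) : O.Let N (infl c A (m + 1)) (cj c y) :=
  Let.mono (hT _) (infl_shift c A m) (h.conj c)

theorem Big.lets {A : Set Γ} (h : O.Term A) :
    ∀ {x y : Γ}, O.Big N A x y → O.Let N A x ∧ O.Let N A y := by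
  induction h with
  | empty => intro x y h; exact h.not_empty.elim
  | @step A c ht _ _ hT ih =>
    intro x y h
    rcases h.cases ht with ⟨rfl, y0, h1, rfl⟩ | ⟨rfl, h1⟩ | h1
    · exact ⟨Let.pos ht, Let.step ht (h1.up1 hT)⟩
    · exact ⟨Let.neg ht, Let.step ht (h1.up0 hT)⟩
    · exact ⟨Let.step ht (ih _ h1).1, Let.step ht (ih _ h1).2⟩

theorem Big.small {c x y : Γ} {A : Set Γ} (ht : O.Top c A) (hT : ∀ m, O.Term (infl c A m))
    (h : O.Big N A x y) : O.Let N (infl c A (N + 1)) y := by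
  rcases h.cases ht with ⟨rfl, y0, h1, rfl⟩ | ⟨rfl, h1⟩ | h1
  · exact h1.up1 hT
  · exact h1.up0 hT
  · exact (h1.lets (hT _)).2

theorem Big.low {c x y : Γ} {A : Set Γ} {m : ℕ} (ht : O.Top c A)
    (h3 : ∀ (m : ℕ) (j : ℤ), c ^ j ∈ Subgroup.closure (infl c A m) → j = 0)
    (hx : O.Let N (infl c A m) x) (h : O.Big N A x y) : O.Big N (infl c A (N + 1)) x y := by
  rcases h.cases ht with ⟨e, -⟩ | ⟨e, -⟩ | h1
  · exact absurd e (ne_top h3 hx).1
  · exact absurd e (ne_top h3 hx).2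
  · exact h1

theorem Big.full {A : Set Γ} (h : O.Term A) : ∀ {P : Set Γ} {x y : Γ}, P ⊆ A →
    O.Big N A x y → O.Let N P x → O.Let N P y → O.Big N P x y := by
  induction h with
  | empty => intro P x y _ h; exact h.not_empty.elim
  | @step A c ht h3 h4 hT ih =>
    intro P x y hP h hx hy
    by_cases hc : c ∈ P
    · have ht' := ht.mono hP hc
      have hy1 := Let.low ht' h3 (h.small ht hT) hy
      have hTP : ∀ m, O.Term (infl c P m) := fun m => (hT m).subset (infl_mono hP le_rfl)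
      rcases h.cases ht with ⟨rfl, y0, h1, rfl⟩ | ⟨rfl, h1⟩ | h1
      · refine Big.pos ht' ?_
        have h5 := Let.inter (hT _) (infl_shift x A N) (infl_mono hP le_rfl) (h1.conj x) hy1
        have h6 := (Let.mono ((hTP _).subset (infl_shift x P N)) (h4.high hP N) h5).conj x⁻¹
        rwa [cj_image_inv, cj_inv_cj] at h6
      · refine Big.neg ht' ?_
        exact Let.mono (hTP _) (h4.low hP N)
          (Let.inter (hT _) (infl_mono le_rfl (by omega)) (infl_mono hP le_rfl) h1 hy1)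
      · exact Big.step ht' (ih _ (infl_mono hP le_rfl) h1
          (Let.low ht' h3 (h1.lets (hT _)).1 hx) hy1)
    · have h1 := Let.mono (hT _) (sub_infl hP hc N) hx
      exact ih _ (sub_infl hP hc N) (h.low ht h3 h1) hx hy

theorem Big.asymm {A : Set Γ} (h : O.Term A) :
    ∀ {x y : Γ}, O.Big N A x y → O.Big N A y x → False := by
  induction h with
  | empty => intro x y h; exact h.not_empty.elim
  | @step A c ht h3 _ hT ih =>
    intro x y h h'
    exact ih _ (h.low ht h3 (h'.small ht hT)) (h'.low ht h3 (h.small ht hT))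

theorem Big.acyc {A : Set Γ} (h : O.Term A) :
    ∀ {x y z : Γ}, O.Big N A x y → O.Big N A y z → O.Big N A z x → False := by
  induction h with
  | empty => intro x y z h; exact h.not_empty.elim
  | @step A c ht h3 _ hT ih =>
    intro x y z h h' h''
    exact ih _ (h.low ht h3 (h''.small ht hT)) (h'.low ht h3 (h.small ht hT))
      (h''.low ht h3 (h'.small ht hT))

theorem Big.cube {A : Set Γ} (h : O.Term A) :
    ∀ {x y z : Γ}, O.Big N A x y → O.Big N A x z → O.Big N A y z →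
      O.Big N A (cj x⁻¹ y) (cj x⁻¹ z) ∧ O.Big N A x (cj y⁻¹ z) := by
  induction h with
  | empty => intro x y z h; exact h.not_empty.elim
  | @step A c ht h3 _ hT ih =>
    intro x y z h1 h2 h4
    have h5 := h4.low ht h3 (h1.small ht hT)
    have hcc : c ≠ c⁻¹ := by
      intro e
      have : c ^ (2 : ℤ) = 1 := by
        rw [zpow_two]; nth_rewrite 2 [e]; simp
      exact absurd (h3 0 2 (by rw [this]; exact one_mem _)) (by decide)
    rcases h1.cases ht with ⟨rfl, y0, k1, rfl⟩ | ⟨rfl, k1⟩ | k1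
    · rcases h2.cases ht with ⟨-, z0, k2, rfl⟩ | ⟨e, -⟩ | k2
      · have k3 := (Big.full (hT _) (infl_shift x A N) h5 (k1.conj x) (k2.conj x)).conj x⁻¹
        rw [cj_image_inv] at k3
        refine ⟨Big.step ht (Big.mono (hT _) (infl_mono le_rfl (by omega)) k3), ?_⟩
        rw [cj_inv_cj, cj_inv_cj] at k3
        have e : cj (cj x y0)⁻¹ (cj x z0) = cj x (cj y0⁻¹ z0) := by simp only [cj]; group
        rw [e]
        exact Big.pos ht (k3.rot.lets (hT _)).2
      · exact absurd e hcc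
      · exact absurd rfl (ne_top h3 (k2.lets (hT _)).1).1
    · rcases h2.cases ht with ⟨e, -⟩ | ⟨-, k2⟩ | k2
      · exact absurd e.symm hcc
      · have k3 := Big.full (hT _) (infl_mono le_rfl (by omega)) h5 k1 k2
        rw [inv_inv]
        exact ⟨Big.step ht (Big.mono (hT _) (infl_shift c A N) (k3.conj c)),
          Big.neg ht (k3.rot.lets (hT _)).2⟩
      · exact absurd rfl (ne_top h3 (k2.lets (hT _)).1).2
    · have k2 := h2.low ht h3 (k1.lets (hT _)).1
      exact ⟨Big.step ht (ih _ k1 k2 h5).1, Big.step ht (ih _ k1 k2 h5).2⟩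

theorem Let.succ {A : Set Γ} (h : O.Term A) : ∀ {x : Γ}, O.Let N A x → O.Let (N + 1) A x := by
  induction h with
  | empty => intro x h; exact h.not_empty.elim
  | @step A c ht _ _ hT ih =>
    intro x h
    rcases h.cases ht with rfl | rfl | h1
    · exact Let.pos ht
    · exact Let.neg ht
    · exact Let.step ht ((ih _ h1).up0 hT)

theorem Big.succ {A : Set Γ} (h : O.Term A) :
    ∀ {x y : Γ}, O.Big N A x y → O.Big (N + 1) A x y := by
  induction h with
  | empty => intro x y h; exact h.not_empty.elim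
  | @step A c ht _ _ hT ih =>
    intro x y h
    rcases h.cases ht with ⟨rfl, y0, h1, rfl⟩ | ⟨rfl, h1⟩ | h1
    · exact Big.pos ht ((h1.succ (hT _)).up0 hT)
    · exact Big.neg ht ((h1.succ (hT _)).up0 hT)
    · exact Big.step ht (Big.mono (hT _) (infl_mono le_rfl (by omega)) (ih _ h1))

theorem Let.le {A : Set Γ} (h : O.Term A) {M : ℕ} (hM : N ≤ M) {x : Γ} (hx : O.Let N A x) :
    O.Let M A x := by
  induction hM with
  | refl => exact hx
  | step _ ih => exact ih.succ h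

theorem Big.le {A : Set Γ} (h : O.Term A) {M : ℕ} (hM : N ≤ M) {x y : Γ} (hx : O.Big N A x y) :
    O.Big M A x y := by
  induction hM with
  | refl => exact hx
  | step _ ih => exact ih.succ h

end COrd
end Pool.Agent.Lib.MP_63c928_gt
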