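import Mathlib

namespace Pool.Agent.Lib.MP_63c928_gt

/-- A median graph: connected, and any three vertices have exactly one median. -/
def IsMedian {V : Type} (X : SimpleGraph V) : Prop :=
  X.Connected ∧ ∀ x y z : V, ∃! m : V, X.dist x m + X.dist m y = X.dist x y ∧
    X.dist y m + X.dist m z = X.dist y z ∧ X.dist x m + X.dist m z = X.dist x z

/-- Some Cayley graph of `G` with respect to a finite generating set is a median graph. -/
def MedianGroup (G : Type) [Group G] : Prop :=
  ∃ S : Set G, S.Finite ∧ Subgroup.closure S = ⊤ ∧ IsMedian (SimpleGraph.mulCayley S)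

/-- `H` is the colimit of a directed sequence of median groups: a directed system `G`, `φ` with a
compatible family of surjections `π` onto `H` whose kernels die in the system. -/
def MedianColimit (H : Type) [Group H] : Prop :=
  ∃ (G : ℕ → Type) (_ : ∀ n, Group (G n)) (φ : ∀ i j : ℕ, i ≤ j → (G i →* G j))
    (π : ∀ n, G n →* H), (∀ n, MedianGroup (G n)) ∧
    (∀ (i : ℕ) (h : i ≤ i) (x : G i), φ i i h x = x) ∧
    (∀ (i j k : ℕ) (hij : i ≤ j) (hjk : j ≤ k) (hik : i ≤ k) (x : G i),
      φ j k hjk (φ i j hij x) = φ i k hik x) ∧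
    (∀ (i j : ℕ) (h : i ≤ j) (x : G i), π j (φ i j h x) = π i x) ∧
    (∀ n, Function.Surjective (π n)) ∧
    ∀ (i : ℕ) (x : G i), π i x = 1 → ∃ (j : ℕ) (h : i ≤ j), φ i j h x = 1

/-- A marked standard function: an order automorphism `f` with `r ≥ 1` orbitals
`(t i, t (i+1))`, `i < r`, of which the first `r / 2` are negative and the others positive,
together with a marker `s i` in each orbital. -/
structure StdFun (α : Type) [LinearOrder α] where
  f : α ≃o α
  r : ℕ
  t : ℕ → α
  s : ℕ → α
  r_pos : 0 < r
  mark : ∀ i < r, t i < s i ∧ s i < t (i + 1)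
  fix_out : ∀ x, x ≤ t 0 ∨ t r ≤ x → f x = x
  fix_t : ∀ i ≤ r, f (t i) = t i
  neg : ∀ i < r / 2, ∀ x, t i < x → x < t (i + 1) → f x < x
  pos : ∀ i < r, r / 2 ≤ i → ∀ x, t i < x → x < t (i + 1) → x < f x

namespace StdFun
variable {α : Type} [LinearOrder α]

/-- The union of the feet of the bumps of a marked standard function. -/
def feet (a : StdFun α) : Set α :=
  {x | ∃ i < a.r, (a.t i < x ∧ x < a.s i) ∨
    (max (a.f (a.s i)) (a.f.symm (a.s i)) ≤ x ∧ x < a.t (i + 1))}

/-- `(a, k)` stands for `a` with its `k` leftmost and `k` rightmost orbitals removed; its extended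
support runs from `t k` to `t (r - k)`; it is a point if `r = 2 k` and is empty if `r < 2 k`.
`StdPair (a, k) (b, l)` is the recursive definition of a standard pair: the first is to the left
of the second, or is nested in the second and the pair `(b, l + 1)`, `(a, k)` is standard. -/
inductive StdPair : StdFun α × ℕ → StdFun α × ℕ → Prop
  | empty {a b : StdFun α} {k l : ℕ} : a.r < 2 * k → StdPair (a, k) (b, l)
  | left {a b : StdFun α} {k l : ℕ} : a.t (a.r - k) ≤ b.t l → StdPair (a, k) (b, l)
  | nest {a b : StdFun α} {k l : ℕ} : 2 * k ≤ a.r → 2 * l ≤ b.r → b.t l < a.t k →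
      a.t (a.r - k) < b.t (b.r - l) → StdPair (b, l + 1) (a, k) → StdPair (a, k) (b, l)

/-- A standard generating set: finite, geometrically fast, and pairwise standard. -/
def IsStandard (A : Set (StdFun α)) : Prop :=
  A.Finite ∧ ∀ a ∈ A, ∀ b ∈ A, a ≠ b →
    Disjoint a.feet b.feet ∧ (StdPair (a, 0) (b, 0) ∨ StdPair (b, 0) (a, 0))

end StdFun

end Pool.Agent.Lib.MP_63c928_gt
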