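import Pool.Agent.Lib.MP_63c928_gt.Hydra

namespace Pool.Agent.Lib.MP_63c928_gt
open Pointwise

variable {α : Type} [LinearOrder α]

theorem mul_ap (f g : α ≃o α) (z : α) : (f * g) z = f (g z) := rfl

theorem one_ap (z : α) : (1 : α ≃o α) z = z := rfl

theorem inv_ap (f : α ≃o α) (z : α) : f⁻¹ (f z) = z := f.symm_apply_apply z

theorem ap_inv (f : α ≃o α) (z : α) : f (f⁻¹ z) = z := f.apply_symm_apply z

theorem pow_ap_fix {f : α ≃o α} {z : α} (h : f z = z) (k : ℕ) : (f ^ k) z = z := by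
  induction k with
  | zero => rfl
  | succ k ih => rw [pow_succ, mul_ap, h, ih]

/-- cluster description of a marked standard function -/
@[ext]
structure Cl (α : Type) [LinearOrder α] where
  f : α ≃o α
  r : ℕ
  pos : α → ℕ
  q : ℕ → α
  r_pos : 0 < r
  mono : Monotone pos
  le : ∀ z, pos z ≤ 2 * r + 2
  pos_q : ∀ j, pos (q j) = 2 * min j r + 1
  fix : ∀ z, pos z = 0 ∨ pos z = 2 * r + 2 → f z = z
  dneg : ∀ i < r / 2, ∀ z, pos z = 2 * i + 2 → ∀ k, 0 < k → pos ((f ^ k) z) = 2 * i + 1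
  dpos : ∀ i < r, r / 2 ≤ i → ∀ z, pos z = 2 * i + 2 → ∀ k, 0 < k → pos ((f ^ k) z) = 2 * i + 3
  last : ∀ z, pos z = 2 * r + 1 → z < f z ∧ pos (f z) = 2 * r + 1

namespace Cl

theorem conj_pow_ap (g f : α ≃o α) (k : ℕ) (z : α) :
    g⁻¹ (((g * f * g⁻¹) ^ k) z) = (f ^ k) (g⁻¹ z) := by
  rw [conj_pow, mul_ap, mul_ap, inv_ap]

def act (g : α ≃o α) (x : Cl α) : Cl α where
  f := g * x.f * g⁻¹
  r := x.r
  pos z := x.pos (g⁻¹ z)
  q j := g (x.q j)
  r_pos := x.r_pos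
  mono := x.mono.comp (g⁻¹).monotone
  le z := x.le _
  pos_q j := by rw [inv_ap, x.pos_q]
  fix z h := by rw [mul_ap, mul_ap, x.fix _ h, ap_inv]
  dneg i hi z h k hk := by rw [conj_pow_ap]; exact x.dneg i hi _ h k hk
  dpos i hi hi' z h k hk := by rw [conj_pow_ap]; exact x.dpos i hi hi' _ h k hk
  last z h := by
    obtain ⟨h1, h2⟩ := x.last _ h
    refine ⟨?_, by rw [mul_ap, mul_ap, inv_ap]; exact h2⟩
    have := g.strictMono h1
    rwa [ap_inv] at this

instance : MulAction (α ≃o α) (Cl α) where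
  smul := act
  one_smul x := Cl.ext (by change 1 * x.f * 1⁻¹ = x.f; simp) rfl rfl rfl
  mul_smul g h x := Cl.ext (by
    change g * h * x.f * (g * h)⁻¹ = g * (h * x.f * h⁻¹) * g⁻¹
    group) rfl rfl rfl

theorem smul_f (g : α ≃o α) (x : Cl α) : (g • x).f = g * x.f * g⁻¹ := rfl
theorem smul_r (g : α ≃o α) (x : Cl α) : (g • x).r = x.r := rfl
theorem smul_pos (g : α ≃o α) (x : Cl α) (z : α) : (g • x).pos z = x.pos (g⁻¹ z) := rfl
theorem smul_q (g : α ≃o α) (x : Cl α) (j : ℕ) : (g • x).q j = g (x.q j) := rfl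

theorem lt_of_pos (c : Cl α) {z w : α} (h : c.pos z < c.pos w) : z < w := by
  by_contra h1
  exact absurd (c.mono (not_lt.1 h1)) (not_le.2 h)

theorem pos_le (c : Cl α) {z w : α} (h : z < w) : c.pos z ≤ c.pos w := c.mono h.le

theorem q_le (c : Cl α) {i j : ℕ} (h : i ≤ j) (hj : j ≤ c.r) : c.q i ≤ c.q j := by
  rcases h.eq_or_lt with rfl | h
  · exact le_rfl
  · refine (c.lt_of_pos ?_).le
    rw [c.pos_q, c.pos_q]
    omega

theorem dyn (c : Cl α) {k : ℕ} (hk : 0 < k) {z : α} (h : c.pos z % 2 = 0) :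
    (c.pos z = 0 → c.pos ((c.f ^ k) z) = 0) ∧
    (c.pos z = 2 * c.r + 2 → c.pos ((c.f ^ k) z) = 2 * c.r + 2) ∧
    (2 ≤ c.pos z → c.pos z ≤ 2 * (c.r / 2) → c.pos ((c.f ^ k) z) + 1 = c.pos z) ∧
    (2 * (c.r / 2) + 2 ≤ c.pos z → c.pos z ≤ 2 * c.r → c.pos ((c.f ^ k) z) = c.pos z + 1) := by
  refine ⟨fun h1 => ?_, fun h1 => ?_, fun h1 h2 => ?_, fun h1 h2 => ?_⟩
  · rw [pow_ap_fix (c.fix z (Or.inl h1)), h1]
  · rw [pow_ap_fix (c.fix z (Or.inr h1)), h1]
  · have := c.dneg (c.pos z / 2 - 1) (by omega) z (by omega) k hk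
    omega
  · have := c.dpos (c.pos z / 2 - 1) (by omega) (by omega) z (by omega) k hk
    omega

inductive Osc : Cl α → ℕ → Cl α → ℕ → ℕ → Prop
  | empty {a b : Cl α} {k l : ℕ} : a.r < 2 * k → Osc a k b l 0
  | left {a b : Cl α} {k l : ℕ} : a.q (a.r - k) < b.q l → Osc a k b l 0
  | nest {a b : Cl α} {k l n : ℕ} : 2 * k ≤ a.r → 2 * l ≤ b.r → b.q l < a.q k →
      a.q (a.r - k) < b.q (b.r - l) → Osc b (l + 1) a k n → Osc a k b l (n + 1)

theorem lohi (a : Cl α) {k : ℕ} (h : 2 * k ≤ a.r) : a.q k ≤ a.q (a.r - k) :=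
  a.q_le (by omega) (by omega)

theorem Osc.zero {a b : Cl α} {k l : ℕ} (h : Osc a k b l 0) :
    a.r < 2 * k ∨ a.q (a.r - k) < b.q l := by
  cases h with
  | empty h => exact Or.inl h
  | left h => exact Or.inr h

theorem Osc.succ {a b : Cl α} {k l n : ℕ} (h : Osc a k b l (n + 1)) :
    2 * k ≤ a.r ∧ 2 * l ≤ b.r ∧ b.q l < a.q k ∧ a.q (a.r - k) < b.q (b.r - l) ∧
      Osc b (l + 1) a k n := by
  cases h with
  | nest h1 h2 h3 h4 h5 => exact ⟨h1, h2, h3, h4, h5⟩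

theorem Osc.unique {n : ℕ} : ∀ {a b : Cl α} {k l n' : ℕ}, Osc a k b l n → Osc a k b l n' →
    n = n' := by
  have key : ∀ {a b : Cl α} {k l n : ℕ}, Osc a k b l 0 → Osc a k b l (n + 1) → False := by
    intro a b k l n h h'
    obtain ⟨h1, h2, h3, h4, -⟩ := h'.succ
    rcases h.zero with h5 | h5
    · omega
    · exact lt_irrefl _ ((h5.trans h3).trans_le (lohi a h1))
  induction n with
  | zero =>
    intro a b k l n' h h'
    cases n' with
    | zero => rfl
    | succ n' => exact (key h h').elim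
  | succ n ih =>
    intro a b k l n' h h'
    cases n' with
    | zero => exact (key h' h).elim
    | succ n' => rw [ih h.succ.2.2.2.2 h'.succ.2.2.2.2]

theorem Osc.hi_lt {a b : Cl α} {k l n : ℕ} (h : Osc a k b l n) (ha : 2 * k ≤ a.r)
    (hb : 2 * l ≤ b.r) : a.q (a.r - k) < b.q (b.r - l) := by
  cases h with
  | empty h => omega
  | left h => exact h.trans_le (lohi b hb)
  | nest _ _ _ h _ => exact h

theorem Osc.smul {a b : Cl α} {k l n : ℕ} (h : Osc a k b l n) (g : α ≃o α) :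
    Osc (g • a) k (g • b) l n := by
  induction h with
  | empty h => exact Osc.empty h
  | left h => exact Osc.left (g.strictMono h)
  | nest h1 h2 h3 h4 _ ih => exact Osc.nest h1 h2 (g.strictMono h3) (g.strictMono h4) ih

theorem Osc.bang (n : ℕ) : ∀ {u v w : Cl α} {i j k p q r : ℕ}, p + q + r = n → Osc v j w k p →
    Osc u i w k q → Osc u i v j r → 2 * j ≤ v.r → 2 * k ≤ w.r →
    (p < q → r + 1 = p) ∧ (q < p → r = q) ∧ (p = q → p ≤ r + 1) := by
  induction n using Nat.strong_induction_on with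
  | _ n ih =>
  intro u v w i j k p q r hn h1 h2 h3 hv hw
  rcases p with _ | p
  · rcases q with _ | q
    · omega
    · exfalso
      obtain ⟨k1, -, k3, -⟩ := h2.succ
      rcases h1.zero with h | h
      · omega
      · exact lt_irrefl _ (((h3.hi_lt k1 hv).trans (h.trans k3)).trans_le (lohi u k1))
  · obtain ⟨-, -, a3, a4, a5⟩ := h1.succ
    rcases q with _ | q
    · rcases r with _ | r
      · omega
      · exfalso
        obtain ⟨k1, -, k3, -⟩ := h3.succ
        rcases h2.zero with h | h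
        · omega
        · exact lt_irrefl _ ((h.trans (a3.trans k3)).trans_le (lohi u k1))
    · obtain ⟨b1, -, -, -, b5⟩ := h2.succ
      have := ih (r + p + q) (by omega) rfl h3 a5 b5 b1 hv
      omega

def Fast (a b : Cl α) : Prop := ∀ z, a.pos z % 2 = 0 ∨ b.pos z % 2 = 0

theorem Fast.symm {a b : Cl α} (h : Fast a b) : Fast b a := fun z => (h z).symm

theorem Fast.even {a b : Cl α} (h : Fast a b) (j : ℕ) : b.pos (a.q j) % 2 = 0 := by
  have := h (a.q j)
  have := a.pos_q j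
  omega

theorem Fast.lt_q {a c : Cl α} (h : Fast a c) {i j : ℕ} (h1 : a.q i < c.q j) :
    c.pos (a.q i) ≤ 2 * j := by
  have := h.even i
  have := c.pos_le h1
  have := c.pos_q j
  omega

theorem Fast.q_lt {a c : Cl α} (h : Fast a c) {i j : ℕ} (h1 : c.q j < a.q i) (hj : j ≤ c.r) :
    2 * j + 2 ≤ c.pos (a.q i) := by
  have := h.even i
  have := c.pos_le h1
  have := c.pos_q j
  omega

theorem cross_aux {x y c : Cl α} (hx : Fast x c) (hy : Fast y c) {k : ℕ} (hk : 0 < k) (d : ℕ) :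
    ∀ {s t s' d' : ℕ}, Osc x s c t d → Osc y s' c t (d' + 1) →
      Osc x s (c.f ^ k • y) s' (min d' d) := by
  induction d using Nat.strong_induction_on with
  | _ d ih =>
  intro s t s' d' h1 h2
  obtain ⟨ey, ec, a1, a2, a3⟩ := h2.succ
  by_cases ex : x.r < 2 * s
  · obtain rfl := h1.unique (Osc.empty ex)
    rw [Nat.min_zero]
    exact Osc.empty ex
  have b1 := hy.q_lt a1 (by omega)
  have b2 := hy.lt_q a2
  have b3 := c.mono (lohi y ey)
  have b4 := c.dyn hk (hy.even s')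
  have b5 := hx.lt_q (h1.hi_lt (by omega) ec)
  rcases d' with _ | d'
  · refine Osc.left (c.lt_of_pos ?_)
    rw [smul_q]
    rcases a3.zero with h | h
    · omega
    · have := hy.q_lt h (by omega)
      omega
  obtain ⟨ec', -, c1, c2, c3⟩ := a3.succ
  have b6 := hy.lt_q c1
  have b7 := hy.q_lt c2 (by omega)
  rcases d with _ | d
  · refine Osc.left (c.lt_of_pos ?_)
    rw [smul_q]
    have := hx.lt_q (h1.zero.resolve_left ex)
    omega
  obtain ⟨-, -, d1, d2, d3⟩ := h1.succ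
  have b8 := hx.q_lt d1 (by omega)
  have b9 := c.dyn hk (hy.even (y.r - s'))
  have e : min (d' + 1) (d + 1) = min d' d + 1 := by omega
  rw [e]
  refine Osc.nest (by omega) ey (c.lt_of_pos ?_) (c.lt_of_pos ?_) ?_
  · rw [smul_q]; omega
  · rw [smul_q, smul_r]; omega
  clear e b3 b4 b9 b2 b5 b7 b6
  by_cases ey' : y.r < 2 * (s' + 1)
  · obtain rfl := c3.unique (Osc.empty ey')
    rw [Nat.zero_min]
    exact Osc.empty ey'
  have f0 := c.mono (y.q_le (by omega : s' ≤ y.r - (s' + 1)) (by omega))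
  have f1 := c.dyn hk (hy.even (y.r - (s' + 1)))
  have f1' := hy.even (y.r - (s' + 1))
  rcases d' with _ | d'
  · refine Osc.left (c.lt_of_pos ?_)
    rw [smul_q, smul_r]
    have := hy.lt_q (c3.zero.resolve_left ey')
    omega
  obtain ⟨-, -, g1, g2, -⟩ := c3.succ
  have f2 := hy.lt_q g2
  rcases d with _ | d
  · refine Osc.left (c.lt_of_pos ?_)
    rw [smul_q, smul_r]
    have := hx.q_lt (d3.zero.resolve_left (by omega)) (by omega)
    omega
  obtain ⟨-, -, i1, i2, i3⟩ := d3.succ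
  have e : min (d' + 1) (d + 1) = min d' d + 1 := by omega
  rw [e]
  refine Osc.nest (by rw [smul_r]; omega) (by omega) (c.lt_of_pos ?_) (c.lt_of_pos ?_)
    (ih d (by omega) i3 c3)
  · rw [smul_q]
    have := hx.lt_q i1
    have := hy.q_lt g1 (by omega)
    have := c.dyn hk (hy.even (s' + 1))
    have := c.le (y.q (s' + 1))
    have := hy.even (s' + 1)
    omega
  · rw [smul_q, smul_r]
    have := hx.q_lt i2 (by omega)
    omega

noncomputable def o (a b : Cl α) : ℕ := sInf {n | Osc a 0 b 0 n}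

theorem Osc.o_eq {a b : Cl α} {n : ℕ} (h : Osc a 0 b 0 n) : o a b = n :=
  (Nat.sInf_mem (s := {n | Osc a 0 b 0 n}) ⟨n, h⟩ : Osc a 0 b 0 _).unique h

theorem o_smul (g : α ≃o α) (a b : Cl α) : o (g • a) (g • b) = o a b := by
  unfold o
  congr 1
  ext n
  refine ⟨fun h => ?_, fun h => Osc.smul h g⟩
  have := Osc.smul h g⁻¹
  rwa [inv_smul_smul, inv_smul_smul] at this

def key (a : Cl α) : α := a.q a.r

def PP (a b : Cl α) : Prop := Fast a b ∧ ((∃ n, Osc a 0 b 0 n) ∨ ∃ n, Osc b 0 a 0 n)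

theorem PP.symm {a b : Cl α} (h : PP a b) : PP b a := ⟨h.1.symm, h.2.symm⟩

theorem PP.smul {a b : Cl α} (h : PP a b) (g : α ≃o α) : PP (g • a) (g • b) :=
  ⟨fun _ => h.1 _, h.2.imp (fun ⟨n, h⟩ => ⟨n, h.smul g⟩) fun ⟨n, h⟩ => ⟨n, h.smul g⟩⟩

def Good (W : Set (Cl α)) : Prop := W.Finite ∧ ∀ a ∈ W, ∀ b ∈ W, a ≠ b → PP a b

theorem Osc.key_lt {a b : Cl α} {n : ℕ} (h : Osc a 0 b 0 n) : key a < key b :=
  h.hi_lt (by omega) (by omega)

theorem Good.osc {W : Set (Cl α)} (h : Good W) {a b : Cl α} (ha : a ∈ W) (hb : b ∈ W)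
    (hab : key a < key b) : Fast a b ∧ Osc a 0 b 0 (o a b) := by
  obtain ⟨h1, ⟨n, h2⟩ | ⟨n, h2⟩⟩ := h.2 a ha b hb fun e => by rw [e] at hab; exact lt_irrefl _ hab
  · exact ⟨h1, by rw [h2.o_eq]; exact h2⟩
  · exact absurd h2.key_lt (lt_asymm hab)

theorem smul_eq_of_left {b c : Cl α} (hF : Fast b c) (h : Osc b 0 c 0 0) : c.f • b = b := by
  have h1 : b.q b.r < c.q 0 := h.zero.resolve_left (by omega)
  have h2 := hF.lt_q h1
  have h3 := hF.symm.q_lt h1 le_rfl
  have key : ∀ z, c.pos z ≠ 0 → b.pos z = 2 * b.r + 2 := by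
    intro z hz
    have k1 := b.pos_le (c.lt_of_pos (z := b.q b.r) (w := z) (by omega))
    have k2 := b.pos_q b.r
    have k3 := b.le z
    by_contra k4
    have k5 := hF z
    have k6 := c.pos_q 0
    have := b.pos_le (c.lt_of_pos (z := c.q 0) (w := z) (by omega))
    omega
  have k1 : ∀ z, c.pos z ≠ 0 → c.pos (c.f z) ≠ 0 := by
    intro z hz h
    have := c.f.injective (c.fix _ (Or.inl h))
    rw [this] at h
    exact hz h
  have k2 : ∀ z, c.pos z = 0 → c.pos (b.f z) = 0 := by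
    intro z hz
    by_contra h
    have := b.f.injective (b.fix _ (Or.inr (key _ h)))
    rw [this] at h
    exact h hz
  refine Cl.ext ?_ rfl ?_ ?_
  · rw [smul_f, mul_inv_eq_iff_eq_mul]
    ext w
    rw [mul_ap, mul_ap]
    by_cases hw : c.pos w = 0
    · rw [c.fix w (Or.inl hw), c.fix _ (Or.inl (k2 w hw))]
    · rw [b.fix w (Or.inr (key w hw)), b.fix _ (Or.inr (key _ (k1 w hw)))]
  · ext z
    obtain ⟨w, rfl⟩ := c.f.surjective z
    rw [smul_pos, inv_ap]
    by_cases hw : c.pos w = 0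
    · rw [c.fix w (Or.inl hw)]
    · rw [key w hw, key _ (k1 w hw)]
  · ext j
    rw [smul_q]
    refine c.fix _ (Or.inl ?_)
    by_contra h
    have := key _ h
    have := b.pos_q j
    omega

theorem fast_smul {b b' c : Cl α} (hb : Fast b c) (hb' : Fast b' c) {n : ℕ}
    (h : Osc b' 0 c 0 (n + 1)) {k : ℕ} (hk : 0 < k) : Fast b (c.f ^ k • b') := by
  intro z
  obtain ⟨w, rfl⟩ := (c.f ^ k).surjective z
  rw [smul_pos, inv_ap]
  by_contra h0
  have h1 : b.pos ((c.f ^ k) w) % 2 = 1 := by omega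
  have h2 : b'.pos w % 2 = 1 := by omega
  clear h0
  obtain ⟨-, -, a1, a2, -⟩ := h.succ
  have b1 := hb'.symm.lt_q a1
  have b2 := hb'.symm.q_lt a2 (by omega)
  have b3 := hb' w
  have b4 := b'.le w
  have b5 := c.pos_le (b'.lt_of_pos (z := c.q 0) (w := w) (by omega))
  have b6 := c.pos_le (b'.lt_of_pos (z := w) (w := c.q (c.r - 0)) (by omega))
  rw [c.pos_q] at b5 b6
  have b7 := c.dyn hk (z := w) (by omega)
  have b8 := hb ((c.f ^ k) w)
  omega

theorem Good.infl {W : Set (Cl α)} (h : Good W) {c : Cl α} (hc : c ∈ W)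
    (ht : ∀ b ∈ W, b ≠ c → key b < key c) (m : ℕ) : Good (inflM c.f c W m) := by
  constructor
  · refine ((h.1.prod (Set.finite_Iio m)).image fun p => c.f ^ p.2 • p.1).subset ?_
    rintro _ ⟨b, hb, -, k, hk, rfl⟩
    exact ⟨(b, k), ⟨hb, hk⟩, rfl⟩
  have key : ∀ b ∈ W, b ≠ c → ∀ b' ∈ W, b' ≠ c → ∀ k l : ℕ, k ≤ l →
      c.f ^ k • b ≠ c.f ^ l • b' → PP (c.f ^ k • b) (c.f ^ l • b') := by
    intro b hb e b' hb' e' k l hkl hne
    obtain ⟨d, rfl⟩ : ∃ d, l = k + d := ⟨l - k, by omega⟩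
    rw [pow_add, mul_smul] at hne ⊢
    refine PP.smul ?_ _
    have hne' : b ≠ c.f ^ d • b' := fun e => hne (by rw [← e])
    obtain ⟨k1, k2⟩ := h.osc hb hc (ht b hb e)
    obtain ⟨k3, k4⟩ := h.osc hb' hc (ht b' hb' e')
    rcases Nat.eq_zero_or_pos d with rfl | hd
    · rw [pow_zero, one_smul] at hne' ⊢
      exact h.2 b hb b' hb' hne'
    generalize o b' c = n at k4
    rcases n with _ | n
    · rw [Hyd.pow_fix (smul_eq_of_left k3 k4)] at hne' ⊢
      exact h.2 b hb b' hb' hne'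
    · exact ⟨fast_smul k1 k3 k4 hd, Or.inl ⟨_, cross_aux k1 k3 hd _ k2 k4⟩⟩
  rintro _ ⟨b, hb, e, k, -, rfl⟩ _ ⟨b', hb', e', l, -, rfl⟩ hne
  rcases le_total k l with hkl | hkl
  · exact key b hb e b' hb' e' k l hkl hne
  · exact (key b' hb' e' b hb e l k hkl hne.symm).symm

noncomputable def hyd (α : Type) [LinearOrder α] : Hyd (α ≃o α) (Cl α) α where
  f := Cl.f
  key := key
  o := o
  Good := Good
  good_empty := ⟨Set.finite_empty, fun _ h => h.elim⟩
  fin h := h.1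
  sub h hV := ⟨h.1.subset hV, fun a ha b hb => h.2 a (hV ha) b (hV hb)⟩
  inj h hx hy e := by
    by_contra hne
    rcases (h.2 _ hx _ hy hne).2 with ⟨n, h1⟩ | ⟨n, h1⟩
    · exact h1.key_lt.ne e
    · exact h1.key_lt.ne e.symm
  bang h ha hb hc hab hbc := Osc.bang _ rfl (h.osc hb hc hbc).2 (h.osc ha hc (hab.trans hbc)).2
    (h.osc ha hb hab).2 (by omega) (by omega)
  f_smul := smul_f
  key_smul g _ _ h := g.strictMono h
  o_smul := o_smul
  good_smul g W h := by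
    refine ⟨h.1.smul_set, ?_⟩
    rintro _ ⟨a, ha, rfl⟩ _ ⟨b, hb, rfl⟩ hne
    exact (h.2 a ha b hb fun e => hne (by rw [e])).smul g
  good_infl h hc ht m := h.infl hc ht m
  cross := by
    intro W c b b' h hc hb hb' h1 h2 h3 k hk
    obtain ⟨k1, k2⟩ := h.osc hb hc h1
    obtain ⟨k3, k4⟩ := h.osc hb' hc h2
    obtain ⟨n, hn⟩ : ∃ n, o b' c = n + 1 := ⟨o b' c - 1, by omega⟩
    rw [hn] at k4 ⊢
    have := cross_aux k1 k3 hk _ k2 k4
    exact ⟨this.key_lt, this.o_eq⟩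
  fix h hc hb h1 h2 := by
    obtain ⟨k1, k2⟩ := h.osc hb hc h1
    rw [h2] at k2
    exact smul_eq_of_left k1 k2

end Cl
end Pool.Agent.Lib.MP_63c928_gt
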