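import Mathlib

namespace Pool.Agent.Lib.MP_63c928_gt
open Pointwise

/-- iterated translates of the elements other than `c` -/
def inflM {Γ M : Type} [Group Γ] [MulAction Γ M] (g : Γ) (c : M) (W : Set M) (m : ℕ) : Set M :=
  {x | ∃ b ∈ W, b ≠ c ∧ ∃ k < m, x = g ^ k • b}

/-- abstract oscillation systems -/
structure Hyd (Γ M α : Type) [Group Γ] [MulAction Γ M] [LinearOrder α] where
  f : M → Γ
  key : M → α
  o : M → M → ℕ
  Good : Set M → Prop
  good_empty : Good ∅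
  fin : ∀ {W}, Good W → W.Finite
  sub : ∀ {W V}, Good W → V ⊆ W → Good V
  inj : ∀ {W x y}, Good W → x ∈ W → y ∈ W → key x = key y → x = y
  bang : ∀ {W a b c}, Good W → a ∈ W → b ∈ W → c ∈ W → key a < key b → key b < key c →
    (o b c < o a c → o a b + 1 = o b c) ∧ (o a c < o b c → o a b = o a c) ∧
      (o b c = o a c → o b c ≤ o a b + 1)
  f_smul : ∀ (g : Γ) x, f (g • x) = g * f x * g⁻¹
  key_smul : ∀ (g : Γ) {x y}, key x < key y → key (g • x) < key (g • y)
  o_smul : ∀ (g : Γ) x y, o (g • x) (g • y) = o x y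
  good_smul : ∀ (g : Γ) {W}, Good W → Good (g • W)
  good_infl : ∀ {W c}, Good W → c ∈ W → (∀ b ∈ W, b ≠ c → key b < key c) →
    ∀ m, Good (inflM (f c) c W m)
  cross : ∀ {W c b b'}, Good W → c ∈ W → b ∈ W → b' ∈ W → key b < key c → key b' < key c →
    0 < o b' c → ∀ k, 0 < k →
      key b < key (f c ^ k • b') ∧ o b (f c ^ k • b') = min (o b' c - 1) (o b c)
  fix : ∀ {W c b}, Good W → c ∈ W → b ∈ W → key b < key c → o b c = 0 → f c • b = b

namespace Hyd
variable {Γ M α : Type} [Group Γ] [MulAction Γ M] [LinearOrder α] (H : Hyd Γ M α)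

def Top (c : M) (W : Set M) : Prop := c ∈ W ∧ ∀ b ∈ W, b ≠ c → H.key b < H.key c

inductive T : Set M → Prop
  | mk {W : Set M} : (∀ c, H.Top c W → ∀ m, T (inflM (H.f c) c W m)) → T W

def Gen (j : ℕ) (U L : Set M) : Prop :=
  ∀ u ∈ U, ∀ l ∈ L, (H.key l < H.key u ∧ H.o l u = j + 1) ∨ (H.key u < H.key l ∧ H.o u l = j)

def Above (j : ℕ) (L U : Set M) : Prop := ∀ l ∈ L, ∀ u ∈ U, H.key l < H.key u ∧ H.o l u = j

def D : ℕ → Set M → Prop
  | 0, W => H.Good W ∧ H.T W
  | j + 1, U => H.Good U ∧ ∀ U' ⊆ U, ∀ L, D j L → H.Good (U' ∪ L) → H.Gen j U' L → D j (U' ∪ L)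

variable {H}

theorem Top.unique {c c' : M} {W : Set M} (h : H.Top c W) (h' : H.Top c' W) : c' = c := by
  by_contra e
  exact lt_asymm (h.2 c' h'.1 e) (h'.2 c h.1 (Ne.symm e))

theorem exists_top {W : Set M} (h : H.Good W) (hW : W.Nonempty) : ∃ c, H.Top c W := by
  obtain ⟨c, hc, h1⟩ := Set.exists_max_image W H.key (H.fin h) hW
  exact ⟨c, hc, fun b hb e => lt_of_le_of_ne (h1 b hb) fun e' => e (H.inj h hb hc e')⟩

theorem tri {W : Set M} (h : H.Good W) {x y : M} (hx : x ∈ W) (hy : y ∈ W) :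
    H.key x < H.key y ∨ x = y ∨ H.key y < H.key x := by
  rcases lt_trichotomy (H.key x) (H.key y) with h1 | h1 | h1
  · exact Or.inl h1
  · exact Or.inr (Or.inl (H.inj h hx hy h1))
  · exact Or.inr (Or.inr h1)

theorem T.subset {W : Set M} (h : H.T W) : H.Good W → ∀ V ⊆ W, H.T V := by
  induction h with
  | @mk W _ ih =>
    intro hG V hV
    rcases V.eq_empty_or_nonempty with rfl | hne
    · exact T.mk fun c hc => hc.1.elim
    obtain ⟨c, hc⟩ := exists_top hG (hne.mono hV)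
    by_cases hcV : c ∈ V
    · refine T.mk fun c' hc' m => ?_
      have : c' = c := Top.unique (W := V) ⟨hcV, fun b hb => hc.2 b (hV hb)⟩ hc'
      subst this
      refine ih c' hc m (H.good_infl hG hc.1 hc.2 m) _ ?_
      rintro x ⟨b, hb, e, k, hk, rfl⟩
      exact ⟨b, hV hb, e, k, hk, rfl⟩
    · exact ih c hc 1 (H.good_infl hG hc.1 hc.2 1) _ fun b hb =>
        ⟨b, hV hb, fun e => hcV (e ▸ hb), 0, by omega, by simp⟩

theorem inflM_smul (g : Γ) (c : M) (W : Set M) (m : ℕ) :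
    inflM (H.f (g • c)) (g • c) (g • W) m = g • inflM (H.f c) c W m := by
  have e : ∀ (k : ℕ) (b : M), H.f (g • c) ^ k • g • b = g • H.f c ^ k • b := by
    intro k b
    rw [H.f_smul, conj_pow, smul_smul, smul_smul]
    simp
  ext x
  constructor
  · rintro ⟨_, ⟨b, hb, rfl⟩, hc, k, hk, rfl⟩
    exact ⟨_, ⟨b, hb, fun e => hc (by rw [e]), k, hk, rfl⟩, (e k b).symm⟩
  · rintro ⟨_, ⟨b, hb, hc, k, hk, rfl⟩, rfl⟩
    exact ⟨_, ⟨b, hb, rfl⟩, fun e => hc (smul_left_cancel g e), k, hk, (e k b).symm⟩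

theorem T.smul {W : Set M} (h : H.T W) (g : Γ) : H.T (g • W) := by
  induction h with
  | @mk W _ ih =>
    refine T.mk fun c hc m => ?_
    obtain ⟨c, hcW, rfl⟩ := hc.1
    simp only
    rw [inflM_smul]
    refine ih c ⟨hcW, fun b hb e => ?_⟩ m
    have := H.key_smul g⁻¹ (hc.2 (g • b) ⟨b, hb, rfl⟩ fun e' => e (smul_left_cancel g e'))
    simpa using this

theorem D.good {j : ℕ} {W : Set M} (h : H.D j W) : H.Good W := by
  cases j <;> exact h.1

theorem D.subset {j : ℕ} {W V : Set M} (h : H.D j W) (hV : V ⊆ W) : H.D j V := by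
  cases j with
  | zero => exact ⟨H.sub h.1 hV, h.2.subset h.1 V hV⟩
  | succ j => exact ⟨H.sub h.1 hV, fun U' hU => h.2 U' (hU.trans hV)⟩

theorem D.empty (j : ℕ) : H.D j ∅ := by
  cases j with
  | zero => exact ⟨H.good_empty, T.mk fun c hc => hc.1.elim⟩
  | succ j =>
    refine ⟨H.good_empty, fun U' hU L hL _ _ => ?_⟩
    rwa [Set.subset_empty_iff.1 hU, Set.empty_union]

theorem D.smul {j : ℕ} : ∀ {W : Set M}, H.D j W → ∀ g : Γ, H.D j (g • W) := by
  induction j with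
  | zero => intro W h g; exact ⟨H.good_smul g h.1, h.2.smul g⟩
  | succ j ih =>
    intro W h g
    refine ⟨H.good_smul g h.1, fun U hU L hL hG hX => ?_⟩
    have h1 := h.2 (g⁻¹ • U) (by rwa [Set.smul_set_subset_iff_subset_inv_smul_set, inv_inv])
      (g⁻¹ • L) (ih hL _) (by rw [← Set.smul_set_union]; exact H.good_smul _ hG) (by
        rintro _ ⟨u, hu, rfl⟩ _ ⟨l, hl, rfl⟩
        simp only [H.o_smul]
        exact (hX u hu l hl).imp (fun k => ⟨H.key_smul _ k.1, k.2⟩)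
          fun k => ⟨H.key_smul _ k.1, k.2⟩)
    have h2 := ih h1 g
    rwa [← Set.smul_set_union, smul_inv_smul] at h2

theorem pow_fix {g : Γ} {b : M} (h : g • b = b) (k : ℕ) : g ^ k • b = b := by
  induction k with
  | zero => simp
  | succ k ih => rw [pow_succ, mul_smul, h, ih]

theorem T.sum {L U : Set M} (hL : H.T L) (hU : H.T U) :
    H.Good (L ∪ U) → H.Above 0 L U → H.T (L ∪ U) := by
  induction hU with
  | @mk U _ ih =>
    intro hG hA
    rcases U.eq_empty_or_nonempty with rfl | ⟨u, hu⟩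
    · rwa [Set.union_empty]
    refine T.mk fun c hc m => ?_
    have hcU : c ∈ U := by
      rcases hc.1 with h1 | h1
      · have h2 := (hA c h1 u hu).1
        exact absurd (hc.2 u (Or.inr hu) fun e => by rw [e] at h2; exact lt_irrefl _ h2)
          (lt_asymm h2)
      · exact h1
    have hfix : ∀ l ∈ L, ∀ k : ℕ, H.f c ^ k • l = l := fun l hl k =>
      pow_fix (H.fix hG hc.1 (Or.inl hl) (hA l hl c hcU).1 (hA l hl c hcU).2) k
    have h1 := H.good_infl hG hc.1 hc.2 (m + 1)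
    have e : inflM (H.f c) c (L ∪ U) (m + 1) = L ∪ inflM (H.f c) c U (m + 1) := by
      ext x
      constructor
      · rintro ⟨b, hb | hb, e, k, hk, rfl⟩
        · rw [hfix b hb]; exact Or.inl hb
        · exact Or.inr ⟨b, hb, e, k, hk, rfl⟩
      · rintro (hx | ⟨b, hb, e, k, hk, rfl⟩)
        · refine ⟨x, Or.inl hx, fun e => ?_, 0, by omega, by simp⟩
          have := (hA x hx c hcU).1
          rw [e] at this
          exact lt_irrefl _ this
        · exact ⟨b, Or.inr hb, e, k, hk, rfl⟩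
    have h2 : H.T (inflM (H.f c) c (L ∪ U) (m + 1)) := by
      rw [e] at h1 ⊢
      refine ih c ⟨hcU, fun b hb => hc.2 b (Or.inr hb)⟩ (m + 1) h1 ?_
      rintro l hl _ ⟨b, hb, -, k, -, rfl⟩
      rw [← hfix l hl k, H.o_smul]
      exact ⟨H.key_smul _ (hA l hl b hb).1, (hA l hl b hb).2⟩
    refine h2.subset h1 _ ?_
    rintro x ⟨b, hb, e, k, hk, rfl⟩
    exact ⟨b, hb, e, k, by omega, rfl⟩

theorem D.sum {j : ℕ} {L U : Set M} (hL : H.D j L) (hU : H.D j U) (hG : H.Good (L ∪ U))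
    (hA : H.Above j L U) : H.D j (L ∪ U) := by
  cases j with
  | zero => exact ⟨hG, hL.2.sum hU.2 hG hA⟩
  | succ j =>
    refine ⟨hG, fun V hV K hK hG' hX => ?_⟩
    have e : V ∪ K = V ∩ U ∪ (V ∩ L ∪ K) := by
      ext x
      have := @hV x
      simp only [Set.mem_union, Set.mem_inter_iff] at this ⊢
      tauto
    rw [e] at hG' ⊢
    refine hU.2 _ Set.inter_subset_right _ (hL.2 _ Set.inter_subset_right _ hK
      (H.sub hG' Set.subset_union_right) fun u hu => hX u hu.1) hG' ?_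
    rintro u hu l (hl | hl)
    · exact Or.inl (hA l hl.2 u hu.2)
    · exact hX u hu.1 l hl

theorem stack (L : ℕ → Set M) (J : ℕ) (hJ : ∀ i, J ≤ i → L i = ∅) (hG : H.Good {x | ∃ i, x ∈ L i})
    (hD : ∀ i, H.D i (L i)) (hX : ∀ i i', i < i' → H.Gen i (L i') (L i)) (t : ℕ) :
    H.D t {x | ∃ i, t ≤ i ∧ x ∈ L i} := by
  obtain ⟨d, hd⟩ : ∃ d, J ≤ t + d := ⟨J, by omega⟩
  induction d generalizing t with
  | zero =>
    refine (D.empty t).subset ?_
    rintro x ⟨i, hi, hx⟩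
    rwa [hJ i (by omega)] at hx
  | succ d ih =>
    refine ((ih (t + 1) (by omega)).2 _ le_rfl (L t) (hD t) (H.sub hG ?_) ?_).subset ?_
    · rintro x (⟨i, -, hx⟩ | hx)
      · exact ⟨i, hx⟩
      · exact ⟨t, hx⟩
    · rintro u ⟨i, hi, hu⟩
      exact hX t i (by omega) u hu
    · rintro x ⟨i, hi, hx⟩
      rcases hi.eq_or_lt with rfl | hi
      · exact Or.inr hx
      · exact Or.inl ⟨i, hi, hx⟩

variable (H) in
def lev (W : Set M) (c : M) (i : ℕ) : Set M := {x | x ∈ W ∧ H.key x < H.key c ∧ H.o x c = i + 1}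

theorem lev_bound {W : Set M} (hG : H.Good W) (c : M) : ∃ J, ∀ i, J ≤ i → H.lev W c i = ∅ := by
  obtain ⟨J, hJ⟩ := ((H.fin hG).image fun x => H.o x c).bddAbove
  refine ⟨J, fun i hi => Set.eq_empty_of_forall_notMem fun x hx => ?_⟩
  have : H.o x c ≤ J := hJ ⟨x, hx.1, rfl⟩
  have := hx.2.2
  omega

theorem lev_gen {W : Set M} (hG : H.Good W) {c : M} (hc : c ∈ W) {i i' : ℕ} (h : i < i') :
    H.Gen i (H.lev W c i') (H.lev W c i) := by
  rintro u ⟨u1, u2, u3⟩ l ⟨l1, l2, l3⟩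
  rcases tri hG l1 u1 with h1 | rfl | h1
  · exact Or.inl ⟨h1, by have := (H.bang hG l1 u1 hc h1 u2).2.1; omega⟩
  · omega
  · exact Or.inr ⟨h1, by have := (H.bang hG u1 l1 hc h1 l2).1; omega⟩

variable (H) in
def Z (t : ℕ) : Prop := ∀ W c, H.Good W → H.Top c W → (∀ x ∈ W, x ≠ c → t + 1 ≤ H.o x c) →
  (∀ i, t ≤ i → H.D i (H.lev W c i)) → H.D t W

variable (H) in
def Y (t : ℕ) : Prop := ∀ W c, H.Good W → c ∈ W →
  (∀ x ∈ W, H.key x < H.key c → t + 1 ≤ H.o x c) → (∀ y ∈ W, H.key c < H.key y → H.o c y = t) →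
  (∀ i, t < i → H.D i (H.lev W c i)) → H.D t (H.lev W c t ∪ {x | x ∈ W ∧ H.key c < H.key x}) →
  H.D t W

theorem Z_zero : H.Z 0 := by
  intro W c hG hc h1 h2
  refine ⟨hG, T.mk fun c' hc' m => ?_⟩
  obtain rfl := hc.unique hc'
  obtain ⟨J, hJ⟩ := lev_bound hG c'
  have hG' := H.good_infl hG hc.1 hc.2 m
  let X : ℕ → ℕ → Set M := fun n i => {x | ∃ b ∈ H.lev W c' i, ∃ k < n, x = H.f c' ^ k • b}
  have hXs : ∀ n ≤ m, ∀ i, X n i ⊆ inflM (H.f c') c' W m := by
    rintro n hn i _ ⟨b, hb, k, hk, rfl⟩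
    exact ⟨b, hb.1, fun e => by have := hb.2.1; rw [e] at this; exact lt_irrefl _ this,
      k, by omega, rfl⟩
  have cr : ∀ {i i' : ℕ} {b b' : M} {k l : ℕ}, b ∈ H.lev W c' i → b' ∈ H.lev W c' i' → k < l →
      H.key (H.f c' ^ k • b) < H.key (H.f c' ^ l • b') ∧
        H.o (H.f c' ^ k • b) (H.f c' ^ l • b') = min i' (i + 1) := by
    intro i i' b b' k l hb hb' hkl
    obtain ⟨d, rfl⟩ : ∃ d, l = k + d := ⟨l - k, by omega⟩
    obtain ⟨k1, k2⟩ := H.cross hG hc.1 hb.1 hb'.1 hb.2.1 hb'.2.1 (by rw [hb'.2.2]; omega) d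
      (by omega)
    rw [pow_add, mul_smul, H.o_smul, k2, hb.2.2, hb'.2.2]
    exact ⟨H.key_smul _ k1, rfl⟩
  have hXD : ∀ n ≤ m, ∀ i, H.D i (X n i) := by
    intro n hn i
    induction n with
    | zero =>
      refine (D.empty i).subset ?_
      rintro _ ⟨b, -, k, hk, rfl⟩
      omega
    | succ n ih =>
      refine ((ih (by omega)).sum ((h2 i (by omega)).smul (H.f c' ^ n)) (H.sub hG' ?_) ?_).subset ?_
      · rintro x (hx | ⟨b, hb, rfl⟩)
        · exact hXs n (by omega) i hx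
        · exact hXs (n + 1) hn i ⟨b, hb, n, by omega, rfl⟩
      · rintro _ ⟨b, hb, k, hk, rfl⟩ _ ⟨b', hb', rfl⟩
        simpa using cr hb hb' hk
      · rintro _ ⟨b, hb, k, hk, rfl⟩
        rcases (Nat.lt_succ_iff.1 hk).eq_or_lt with rfl | hk
        · exact Or.inr ⟨b, hb, rfl⟩
        · exact Or.inl ⟨b, hb, k, hk, rfl⟩
  refine ((stack (X m) J ?_ (H.sub hG' ?_) (hXD m le_rfl) ?_ 0).subset ?_).2
  · intro i hi
    refine Set.eq_empty_of_forall_notMem ?_
    rintro _ ⟨b, hb, -⟩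
    rwa [hJ i hi] at hb
  · rintro x ⟨i, hx⟩
    exact hXs m le_rfl i hx
  · rintro i i' hi _ ⟨u, hu, k, -, rfl⟩ _ ⟨b, hb, l, -, rfl⟩
    rcases lt_trichotomy l k with h | rfl | h
    · obtain ⟨k1, k2⟩ := cr hb hu h
      exact Or.inl ⟨k1, by omega⟩
    · simp only [H.o_smul]
      exact (lev_gen hG hc.1 hi u hu b hb).imp (fun k => ⟨H.key_smul _ k.1, k.2⟩)
        fun k => ⟨H.key_smul _ k.1, k.2⟩
    · obtain ⟨k1, k2⟩ := cr hu hb h
      exact Or.inr ⟨k1, by omega⟩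
  · rintro _ ⟨b, hb, e, k, hk, rfl⟩
    have := h1 b hb e
    exact ⟨H.o b c' - 1, by omega, b, ⟨hb, hc.2 b hb e, by omega⟩, k, hk, rfl⟩

theorem Y_of_Z {t : ℕ} (hZ : H.Z t) : H.Y t := by
  intro W c hG
  obtain ⟨n, hn⟩ : ∃ n, W.ncard = n := ⟨_, rfl⟩
  induction n using Nat.strong_induction_on generalizing W with
  | _ n ih =>
  intro hc h1 h2 h3 h4
  obtain ⟨y, hy⟩ := exists_top hG ⟨c, hc⟩
  by_cases e : y = c
  · subst e
    refine hZ W y hG hy (fun x hx e => h1 x hx (hy.2 x hx e)) fun i hi => ?_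
    rcases hi.eq_or_lt with rfl | hi
    · exact h4.subset Set.subset_union_left
    · exact h3 i hi
  have hcy := hy.2 c hc (Ne.symm e)
  have k1 : ∀ x ∈ W, H.key x < H.key c → H.o x y = t := by
    intro x hx hxc
    have := H.bang hG hx hc hy.1 hxc hcy
    have := h1 x hx hxc
    have := h2 y hy.1 hcy
    omega
  have k2 : ∀ x ∈ W, x ≠ y → t ≤ H.o x y := by
    intro x hx hxy
    rcases tri hG hx hc with h | rfl | h
    · exact (k1 x hx h).ge
    · exact (h2 y hy.1 hcy).ge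
    · have := H.bang hG hc hx hy.1 h (hy.2 x hx hxy)
      have := h2 x hx h
      have := h2 y hy.1 hcy
      omega
  let R : Set M := {x | x ∈ W ∧ x ≠ y ∧ H.o x y = t}
  let U : Set M := {x | x ∈ W ∧ (x = y ∨ t < H.o x y)}
  have hRW : R ⊆ W := fun x hx => hx.1
  have hUc : ∀ u ∈ U, H.key c < H.key u := by
    rintro u ⟨hu, rfl | h⟩
    · exact hcy
    · rcases tri hG hu hc with h' | rfl | h'
      · have := k1 u hu h'; omega
      · have := h2 y hy.1 hcy; omega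
      · exact h'
  have hR : H.D t R := by
    refine ih R.ncard ?_ R (H.sub hG hRW) rfl ⟨hc, Ne.symm e, h2 y hy.1 hcy⟩
      (fun x hx => h1 x hx.1) (fun x hx => h2 x hx.1)
      (fun i hi => (h3 i hi).subset fun x hx => ⟨hx.1.1, hx.2⟩) (h4.subset ?_)
    · rw [← hn]
      exact Set.ncard_lt_ncard ⟨hRW, fun h => (h hy.1).2.1 rfl⟩ (H.fin hG)
    · rintro x (hx | hx)
      · exact Or.inl ⟨hx.1.1, hx.2⟩
      · exact Or.inr ⟨hx.1.1, hx.2⟩
  have hU : H.D t U := h4.subset fun u hu => Or.inr ⟨hu.1, hUc u hu⟩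
  refine (hR.sum hU (H.sub hG ?_) ?_).subset ?_
  · rintro x (hx | hx) <;> exact hx.1
  · rintro x ⟨x1, x2, x3⟩ u hu
    have hu' := hUc u hu
    obtain ⟨u1, u2⟩ := hu
    by_cases e' : u = y
    · subst e'
      exact ⟨hy.2 x x1 x2, x3⟩
    have u3 : t < H.o u y := u2.resolve_left e'
    rcases tri hG x1 u1 with h | rfl | h
    · exact ⟨h, by have := H.bang hG x1 u1 hy.1 h (hy.2 u u1 e'); omega⟩
    · omega
    · have := H.bang hG u1 x1 hy.1 h (hy.2 x x1 x2)
      have := H.bang hG hc u1 x1 hu' h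
      have := h2 u u1 hu'
      have := h2 x x1 (hu'.trans h)
      omega
  · intro x hx
    by_cases e' : x = y
    · exact Or.inr ⟨hx, Or.inl e'⟩
    · rcases (k2 x hx e').eq_or_lt with h | h
      · exact Or.inl ⟨hx, e', h.symm⟩
      · exact Or.inr ⟨hx, Or.inr h⟩

theorem Z_succ {t : ℕ} (hY : H.Y t) : H.Z (t + 1) := by
  intro W c hG hc h1 h2
  refine ⟨hG, fun V hV L hL hG' hX => ?_⟩
  have hne : ∀ x, H.key x < H.key c → x ≠ c := fun x h e => by
    rw [e] at h; exact lt_irrefl _ h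
  by_cases hcV : c ∈ V
  · refine hY _ c hG' (Or.inl hcV) ?_ ?_ ?_ (hL.subset ?_)
    · rintro x (hx | hx) h
      · have := h1 x (hV hx) (hne x h); omega
      · rcases hX c hcV x hx with k | k
        · exact k.2.ge
        · exact absurd h (lt_asymm k.1)
    · rintro x (hx | hx) h
      · exact absurd (hc.2 x (hV hx) fun e => by rw [e] at h; exact lt_irrefl _ h) (lt_asymm h)
      · rcases hX c hcV x hx with k | k
        · exact absurd h (lt_asymm k.1)
        · exact k.2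
    · intro i hi
      refine (h2 i hi).subset ?_
      rintro x ⟨hx | hx, x2, x3⟩
      · exact ⟨hV hx, x2, x3⟩
      · rcases hX c hcV x hx with k | k
        · omega
        · exact absurd x2 (lt_asymm k.1)
    · rintro x (⟨hx | hx, x2, x3⟩ | ⟨hx | hx, h⟩)
      · have := h1 x (hV hx) (hne x x2); omega
      · exact hx
      · exact absurd (hc.2 x (hV hx) fun e => by rw [e] at h; exact lt_irrefl _ h) (lt_asymm h)
      · exact hx
  · obtain ⟨J, hJ⟩ := lev_bound hG c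
    refine (stack (H.lev W c) J hJ (H.sub hG ?_) (fun i => ?_)
      (fun i i' h => lev_gen hG hc.1 h) (t + 1)).2 V (fun x hx => ?_) L hL hG' hX
    · rintro x ⟨i, hx⟩
      exact hx.1
    · by_cases hi : t + 1 ≤ i
      · exact h2 i hi
      · refine (D.empty i).subset fun x hx => ?_
        have := h1 x hx.1 (hne x hx.2.1)
        have := hx.2.2
        omega
    · have e : x ≠ c := fun e => hcV (e ▸ hx)
      have := h1 x (hV hx) e
      exact ⟨H.o x c - 1, by omega, hV hx, hc.2 x (hV hx) e, by omega⟩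

theorem Z_all (t : ℕ) : H.Z t := by
  induction t with
  | zero => exact Z_zero
  | succ t ih => exact Z_succ (Y_of_Z ih)

theorem D_of_le (n : ℕ) : ∀ (j : ℕ) (U : Set M), U.ncard = n → H.Good U →
    (∀ x ∈ U, ∀ y ∈ U, H.key x < H.key y → j ≤ H.o x y) → H.D j U := by
  induction n using Nat.strong_induction_on with
  | _ n ih =>
  intro j U hn hG h
  rcases U.eq_empty_or_nonempty with rfl | hne
  · exact D.empty j
  obtain ⟨c, hc⟩ := exists_top hG hne
  have small : ∀ (i : ℕ) (V : Set M), V ⊆ U → c ∉ V →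
      (∀ x ∈ V, ∀ y ∈ V, H.key x < H.key y → i ≤ H.o x y) → H.D i V := by
    intro i V hV hcV h1
    refine ih V.ncard ?_ i V rfl (H.sub hG hV) h1
    rw [← hn]
    exact Set.ncard_lt_ncard ⟨hV, fun h => hcV (h hc.1)⟩ (H.fin hG)
  let R : Set M := {x | x ∈ U ∧ x ≠ c ∧ H.o x c = j}
  let W : Set M := {x | x ∈ U ∧ (x = c ∨ j < H.o x c)}
  have hR : H.D j R := small j R (fun x hx => hx.1) (fun hx => hx.2.1 rfl)
    fun x hx y hy => h x hx.1 y hy.1
  have hW : H.D j W := by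
    refine Z_all j W c (H.sub hG fun x hx => hx.1) ⟨⟨hc.1, Or.inl rfl⟩, fun b hb => hc.2 b hb.1⟩
      (fun x hx e => hx.2.resolve_left e) fun i _ => small i _ (fun x hx => hx.1.1)
        (fun hx => lt_irrefl _ hx.2.1) fun x hx y hy hxy => ?_
    have := H.bang hG hx.1.1 hy.1.1 hc.1 hxy hy.2.1
    have := hx.2.2
    have := hy.2.2
    omega
  refine (hR.sum hW (H.sub hG ?_) ?_).subset ?_
  · rintro x (hx | hx) <;> exact hx.1
  · rintro x ⟨x1, x2, x3⟩ u ⟨u1, u2⟩
    by_cases e' : u = c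
    · subst e'
      exact ⟨hc.2 x x1 x2, x3⟩
    have u3 : j < H.o u c := u2.resolve_left e'
    rcases tri hG x1 u1 with k | rfl | k
    · exact ⟨k, by have := H.bang hG x1 u1 hc.1 k (hc.2 u u1 e'); omega⟩
    · omega
    · have := H.bang hG u1 x1 hc.1 k (hc.2 x x1 x2)
      have := h u u1 x x1 k
      omega
  · intro x hx
    by_cases e' : x = c
    · exact Or.inr ⟨hx, Or.inl e'⟩
    · rcases (h x hx c hc.1 (hc.2 x hx e')).eq_or_lt with k | k
      · exact Or.inl ⟨hx, e', k.symm⟩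
      · exact Or.inr ⟨hx, Or.inr k⟩

theorem terminates {U : Set M} (hG : H.Good U) : H.T U :=
  (D_of_le _ 0 U rfl hG fun _ _ _ _ _ => Nat.zero_le _).2

end Hyd
end Pool.Agent.Lib.MP_63c928_gt
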