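import Pool.Agent.Lib.MP_63c928_gt.Defs
import Pool.Agent.Lib.MP_28a49a_al.FourPoint

namespace Pool.Agent.Lib.MP_63c928_gt
open Pool.Agent.Lib.MP_28a49a_al

theorem median_config {V : Type} (d : V → V → ℕ) (sy : ∀ x y, d x y = d y x)
    (tri : ∀ x y z, d x z ≤ d x y + d y z)
    (ex : ∀ x y z, ∃ m, d x m + d m y = d x y ∧ d y m + d m z = d y z ∧ d x m + d m z = d x z)
    {x y z m m' : V}
    (ha : d x m + d m y = d x y ∧ d y m + d m z = d y z ∧ d x m + d m z = d x z)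
    (hb : d x m' + d m' y = d x y ∧ d y m' + d m' z = d y z ∧ d x m' + d m' z = d x z) :
    ∃ u v w k, d m m' = 2 * k ∧ d m u = k ∧ d m v = k ∧ d m w = k ∧ d u m' = k ∧ d v m' = k ∧
      d w m' = k ∧ d u v = 2 * k ∧ d v w = 2 * k ∧ d u w = 2 * k := by
  obtain ⟨a1, a2, a3⟩ := ha
  obtain ⟨b1, b2, b3⟩ := hb
  rw [sy x m] at a1 a3
  rw [sy y m] at a2
  rw [sy x m'] at b1 b3
  rw [sy y m'] at b2
  have c1 : d m x = d m' x := by omega
  have c2 : d m y = d m' y := by omega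
  have c3 : d m z = d m' z := by omega
  have key : ∀ x, d m x = d m' x → ∃ u, d m m' = 2 * d m u ∧ d u m' = d m u ∧
      d m u + d u x = d m x := by
    intro x h
    obtain ⟨u, u1, u2, u3⟩ := ex m m' x
    rw [sy m' u] at u2
    exact ⟨u, by omega, by omega, u3⟩
  obtain ⟨u, u1, u2, u3⟩ := key x c1
  obtain ⟨v, v1, v2, v3⟩ := key y c2
  obtain ⟨w, w1, w2, w3⟩ := key z c3
  have key2 : ∀ x y u v, d m x + d m y = d x y → d m u + d u x = d m x → d m v + d v y = d m y →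
      d u v = d m u + d m v := by
    intro x y u v h1 h2 h3
    have := tri x u y
    have := tri u v y
    have := tri u m v
    have := sy x u
    have := sy u m
    omega
  have e1 := key2 _ _ _ _ a1 u3 v3
  have e2 := key2 _ _ _ _ a2 v3 w3
  have e3 := key2 _ _ _ _ a3 u3 w3
  clear a1 a2 a3 b1 b2 b3 c1 c2 c3 u3 v3 w3
  exact ⟨u, v, w, d m u, u1, rfl, by omega, by omega, u2, by omega, by omega, by omega, by omega,
    by omega⟩

theorem median_unique {V : Type} (d : V → V → ℕ) (sy : ∀ x y, d x y = d y x)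
    (tri : ∀ x y z, d x z ≤ d x y + d y z) (zero : ∀ x y, d x y = 0 → x = y)
    (ex : ∀ x y z, ∃ m, d x m + d m y = d x y ∧ d y m + d m z = d y z ∧ d x m + d m z = d x z)
    (nb : ∀ x y, d x y ≠ 0 → ∃ u, d x u = 1 ∧ d u y + 1 = d x y)
    (k23 : ∀ m m' u v w, d m m' = 2 → d m u = 1 → d m v = 1 → d m w = 1 → d u m' = 1 →
      d v m' = 1 → d w m' = 1 → d u v = 2 → d v w = 2 → d u w = 2 → False) (n : ℕ) :
    ∀ x y z m m', d m m' ≤ n →
      (d x m + d m y = d x y ∧ d y m + d m z = d y z ∧ d x m + d m z = d x z) →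
      (d x m' + d m' y = d x y ∧ d y m' + d m' z = d y z ∧ d x m' + d m' z = d x z) → m = m' := by
  induction n using Nat.strong_induction_on with
  | _ n ih =>
  rintro x y z m m' hn ha hb
  obtain ⟨u, v, w, k, e2, e0, e3, e5, e1, e4, e6, e7, e8, e9⟩ := median_config d sy tri ex ha hb
  clear ha hb
  rcases k with _ | _ | k
  · exact zero _ _ e2
  · exact (k23 m m' u v w e2 e0 e3 e5 e1 e4 e6 e7 e8 e9).elim
  obtain ⟨u', c1, c2⟩ := nb u m (by rw [sy, e0]; exact Nat.succ_ne_zero _)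
  rw [sy u m, e0] at c2
  have c3 : d u' m = k + 1 := Nat.succ_injective c2
  clear c2
  have f1 : d u' m' = k + 3 := by
    have h1 := tri m u' m'
    have h2 := tri u' u m'
    rw [sy m u', e2, c3] at h1
    rw [sy u' u, c1, e1] at h2
    clear * - h1 h2
    omega
  have key : ∀ v, d m v = k + 2 → d v m' = k + 2 → d u v = 2 * (k + 2) →
      d u' v = 2 * k + 3 ∧ ∃ p, d u' p = k + 2 ∧ d p v = k + 1 ∧ d p m' = 1 := by
    intro v h1 h2 h3
    have f2 : d u' v = 2 * k + 3 := by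
      have h4 := tri u u' v
      have h5 := tri u' m v
      rw [h3, c1] at h4
      rw [c3, h1] at h5
      clear * - h4 h5
      omega
    obtain ⟨p, p1, p2, p3⟩ := ex u' v m'
    rw [sy v p, h2] at p2
    rw [f2] at p1
    rw [f1] at p3
    refine ⟨f2, p, ?_⟩
    clear * - p1 p2 p3
    omega
  obtain ⟨f2, p, p1, p2, p3⟩ := key v e3 e4 e7
  obtain ⟨f3, q, q1, q2, q3⟩ := key w e5 e6 e9
  clear key
  have g1 : d p q = 2 := by
    have h1 := tri v p w
    have h2 := tri p q w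
    have h3 := tri p m' q
    rw [e8, sy v p, p2] at h1
    rw [q2] at h2
    rw [p3, sy m' q, q3] at h3
    clear * - h1 h2 h3
    omega
  obtain ⟨o, o1, o2, o3⟩ := ex u' p q
  rw [sy p o, g1] at o2
  rw [p1] at o1
  rw [q1] at o3
  obtain ⟨g2, g2', g2''⟩ : d u' o = k + 1 ∧ d o p = 1 ∧ d o q = 1 := by
    clear * - o1 o2 o3
    omega
  clear o1 o2 o3
  have g3 : d o v = k + 2 := by
    have h1 := tri o p v
    have h2 := tri u' o v
    rw [g2', p2] at h1
    rw [f2, g2] at h2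
    clear * - h1 h2
    omega
  have g4 : d o w = k + 2 := by
    have h1 := tri o q w
    have h2 := tri u' o w
    rw [g2'', q2] at h1
    rw [f3, g2] at h2
    clear * - h1 h2
    omega
  have g5 : d m o ≤ 2 * k + 2 := by
    have h1 := tri m u' o
    rw [sy m u', c3, g2] at h1
    clear * - h1
    omega
  rw [e2] at hn
  have g6 : m = o := ih (2 * k + 2) (by clear * - hn; omega) u' v w m o g5
    ⟨by rw [c3, e3, f2]; ring, by rw [sy v m, e3, e5, e8]; ring, by rw [c3, e5, f3]; ring⟩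
    ⟨by rw [g2, g3, f2]; ring, by rw [sy v o, g3, g4, e8]; ring, by rw [g2, g4, f3]; ring⟩
  subst g6
  have h1 := tri m p m'
  rw [e2, g2', p3] at h1
  clear * - h1
  omega

variable {E : Type} {X : SqSys E}

theorem len_gen (e : E) : X.len (X.gen e) = 1 := by
  have := SqSys.len_gen_mul (X := X) e 1
  simp only [mul_one, SqSys.len_one] at this
  omega

theorem eq_gen {g : X.G} (h : X.len g = 1) : ∃ e, g = X.gen e := by
  obtain ⟨l, hl, rfl⟩ := SqSys.exists_len g
  rw [h] at hl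
  obtain ⟨e, rfl⟩ := List.length_eq_one_iff.1 hl
  exact ⟨e, by simp⟩

theorem gen_inj {a b : E} (h : X.gen a = X.gen b) : a = b := by
  have r : ∀ e : E, X.Red [e] := fun e => ⟨trivial, fun ⟨w, hw⟩ => by
    have := hw.length_eq; simp at this⟩
  rcases SqSys.gar (SqSys.eqv_of_ev (r a) (r b) (by simpa using h)) with ⟨e, -⟩ | ⟨_, _, w, _, h2, _⟩
  · exact e
  · have := h2.length_eq; simp at this

theorem desc_one {a : E} {g : X.G} (h : X.Desc a g) (hg : X.len g = 1) : g = X.gen a := by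
  unfold SqSys.Desc at h
  have := SqSys.eq_one_of_len (g := (X.gen a)⁻¹ * g) (by omega)
  rw [inv_mul_eq_one] at this
  exact this.symm

theorem sq_dist (x y : X.G) : (SimpleGraph.mulCayley (Set.range X.gen)).Reachable x y ∧
    (SimpleGraph.mulCayley (Set.range X.gen)).dist x y = X.len (x⁻¹ * y) := by
  have adj : ∀ (x : X.G) (e : E),
      (SimpleGraph.mulCayley (Set.range X.gen)).Adj x (x * X.gen e) := by
    intro x e
    rw [SimpleGraph.mulCayley_adj']
    refine ⟨fun h => ?_, _, ⟨e, rfl⟩, Or.inl rfl⟩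
    have h1 := len_gen (X := X) e
    rw [left_eq_mul.1 h] at h1
    simp at h1
  have w1 : ∀ (l : List E) (x y : X.G), x * X.ev l = y →
      ∃ p : (SimpleGraph.mulCayley (Set.range X.gen)).Walk x y, p.length = l.length := by
    intro l
    induction l with
    | nil => intro x y h; obtain rfl : x = y := by simpa using h
             exact ⟨SimpleGraph.Walk.nil, rfl⟩
    | cons e l ih =>
      intro x y h
      obtain ⟨p, hp⟩ := ih (x * X.gen e) y (by rw [← h, SqSys.ev_cons, mul_assoc])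
      exact ⟨SimpleGraph.Walk.cons (adj x e) p, by simp [hp]⟩
  have w2 : ∀ (x y : X.G) (p : (SimpleGraph.mulCayley (Set.range X.gen)).Walk x y),
      X.len (x⁻¹ * y) ≤ p.length := by
    intro x y p
    induction p with
    | nil => simp
    | @cons u v w h p ih =>
      have h1 : X.len (u⁻¹ * v) = 1 := by
        rw [SimpleGraph.mulCayley_adj'] at h
        obtain ⟨-, _, ⟨e, rfl⟩, rfl | rfl⟩ := h
        · rw [inv_mul_cancel_left, len_gen]
        · rw [← SqSys.len_inv]; simp [len_gen]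
      have h2 := SqSys.len_mul (u⁻¹ * v) (v⁻¹ * w)
      have e : u⁻¹ * v * (v⁻¹ * w) = u⁻¹ * w := by group
      rw [e] at h2
      simp only [SimpleGraph.Walk.length_cons]
      omega
  obtain ⟨l, hl, h⟩ := SqSys.exists_len (x⁻¹ * y)
  obtain ⟨p, hp⟩ := w1 l x y (by rw [h, mul_inv_cancel_left])
  refine ⟨⟨p⟩, le_antisymm ?_ ?_⟩
  · rw [← hl, ← hp]; exact SimpleGraph.dist_le p
  · obtain ⟨q, hq⟩ := SimpleGraph.Reachable.exists_walk_length_eq_dist ⟨p⟩
    rw [← hq]; exact w2 _ _ q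

theorem sq_medianGroup [Finite E] (X : SqSys E) : MedianGroup X.G := by
  refine ⟨Set.range X.gen, Set.finite_range _, PresentedGroup.closure_range_of _,
    ⟨fun x y => (sq_dist x y).1⟩, fun x y z => ?_⟩
  simp only [(sq_dist _ _).2]
  have sy : ∀ x y : X.G, X.len (x⁻¹ * y) = X.len (y⁻¹ * x) := fun x y => by
    rw [← SqSys.len_inv]; simp
  have ex : ∀ x y z : X.G, ∃ m, X.len (x⁻¹ * m) + X.len (m⁻¹ * y) = X.len (x⁻¹ * y) ∧
      X.len (y⁻¹ * m) + X.len (m⁻¹ * z) = X.len (y⁻¹ * z) ∧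
      X.len (x⁻¹ * m) + X.len (m⁻¹ * z) = X.len (x⁻¹ * z) := by
    intro x y z
    obtain ⟨m, h1, h2, h3⟩ := SqSys.exists_gcd _ (x⁻¹ * y) (x⁻¹ * z) rfl
    have h4 := SqSys.len_cop _ _ _ rfl h3
    have e1 : ∀ y, (x * m)⁻¹ * y = m⁻¹ * (x⁻¹ * y) := fun y => by group
    have e2 : (m⁻¹ * (x⁻¹ * y))⁻¹ * (m⁻¹ * (x⁻¹ * z)) = y⁻¹ * z := by group
    refine ⟨x * m, ?_, ?_, ?_⟩
    · rw [inv_mul_cancel_left, e1]; exact h1
    · rw [sy y, e1, e1, ← e2, h4]
    · rw [inv_mul_cancel_left, e1]; exact h2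
  obtain ⟨m, hm⟩ := ex x y z
  refine ⟨m, hm, fun m' hm' => ?_⟩
  refine median_unique (fun x y : X.G => X.len (x⁻¹ * y)) sy (fun x y z => ?_)
    (fun x y h => ?_) ex (fun x y h => ?_) ?_ _ x y z m' m le_rfl hm' hm
  · have h2 := SqSys.len_mul (x⁻¹ * y) (y⁻¹ * z)
    have e : x⁻¹ * y * (y⁻¹ * z) = x⁻¹ * z := by group
    rwa [e] at h2
  · exact inv_mul_eq_one.1 (SqSys.eq_one_of_len h)
  · obtain ⟨a, ha⟩ := SqSys.exists_desc h
    refine ⟨x * X.gen a, by simp [len_gen], ?_⟩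
    have e : (x * X.gen a)⁻¹ * y = (X.gen a)⁻¹ * (x⁻¹ * y) := by group
    simp only [e]
    exact ha
  · intro m m' u v w h0 h1 h2 h3 h4 h5 h6 h7 h8 h9
    obtain ⟨a, ha⟩ := eq_gen h1
    obtain ⟨b, hb⟩ := eq_gen h2
    obtain ⟨c, hc⟩ := eq_gen h3
    have key : ∀ (u : X.G) (a : E), m⁻¹ * u = X.gen a → X.len (u⁻¹ * m') = 1 →
        X.Desc a (m⁻¹ * m') ∧ X.len ((X.gen a)⁻¹ * (m⁻¹ * m')) = 1 := by
      intro u a ha h4
      have e : (X.gen a)⁻¹ * (m⁻¹ * m') = u⁻¹ * m' := by rw [← ha]; group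
      unfold SqSys.Desc
      rw [e, h4, h0]
      exact ⟨rfl, rfl⟩
    have ne : ∀ (u v : X.G) (a b : E), m⁻¹ * u = X.gen a → m⁻¹ * v = X.gen b →
        X.len (u⁻¹ * v) = 2 → a ≠ b := by
      rintro u v a b ha hb h rfl
      rw [mul_left_cancel (ha.trans hb.symm)] at h
      simp at h
    obtain ⟨b', d', S1, D1, -⟩ := SqSys.quad (key u a ha h4).1 (key v b hb h5).1 (ne _ _ _ _ ha hb h7)
    obtain ⟨c', d'', S2, D2, -⟩ := SqSys.quad (key u a ha h4).1 (key w c hc h6).1 (ne _ _ _ _ ha hc h9)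
    have e := gen_inj ((desc_one D1 (key u a ha h4).2).symm.trans (desc_one D2 (key u a ha h4).2))
    subst e
    exact ne _ _ _ _ hb hc h8 (X.uniq (X.rot S1) (X.rot S2)).1

end Pool.Agent.Lib.MP_63c928_gt
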