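import Pool.Agent.Lib.MP_63c928_gt.Abs
import Pool.Agent.Lib.MP_63c928_gt.Median

namespace Pool.Agent.Lib.MP_63c928_gt
open Pool.Agent.Lib.MP_28a49a_al

variable {Γ : Type} [Group Γ]

namespace COrd
variable {O : COrd Γ}

/-- the square relation -/
def Sq (O : COrd Γ) (N : ℕ) (A : Set Γ) (a b c d : Γ) : Prop :=
  (O.Big N A a c ∧ d = a ∧ b = cj a⁻¹ c) ∨ (O.Big N A c a ∧ b = c ∧ d = cj c⁻¹ a)

theorem Sq.cube {N : ℕ} {A : Set Γ} (h : O.Term A) {a1 a2 a3 b12 b21 b13 b31 b23 b32 : Γ}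
    (h1 : O.Sq N A a1 b12 a2 b21) (h2 : O.Sq N A a1 b13 a3 b31) (h3 : O.Sq N A a2 b23 a3 b32) :
    ∃ x y z, O.Sq N A b12 x b13 y ∧ O.Sq N A b21 x b23 z ∧ O.Sq N A b31 y b32 z := by
  have e : ∀ x y z : Γ, cj x⁻¹ (cj y⁻¹ z) = cj (cj x⁻¹ y)⁻¹ (cj x⁻¹ z) := fun x y z => by
    simp only [cj]; group
  rcases h1 with ⟨k1, rfl, rfl⟩ | ⟨k1, rfl, rfl⟩ <;>
  rcases h2 with ⟨k2, rfl, rfl⟩ | ⟨k2, rfl, rfl⟩ <;>
  rcases h3 with ⟨k3, rfl, rfl⟩ | ⟨k3, rfl, rfl⟩
  · obtain ⟨c1, c2⟩ := Big.cube h k1 k2 k3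
    exact ⟨_, _, _, Or.inl ⟨c1, rfl, rfl⟩, Or.inl ⟨c2, rfl, (e _ _ _).symm⟩, Or.inl ⟨k1, rfl, rfl⟩⟩
  · obtain ⟨c1, c2⟩ := Big.cube h k2 k1 k3
    exact ⟨_, _, _, Or.inr ⟨c1, rfl, rfl⟩, Or.inl ⟨k2, rfl, rfl⟩, Or.inl ⟨c2, rfl, (e _ _ _).symm⟩⟩
  · exact (Big.acyc h k1 k3 k2).elim
  · obtain ⟨c1, c2⟩ := Big.cube h k2 k3 k1
    exact ⟨_, _, _, Or.inr ⟨c2, rfl, rfl⟩, Or.inr ⟨k2, rfl, rfl⟩, Or.inl ⟨c1, rfl, e _ _ _⟩⟩
  · obtain ⟨c1, c2⟩ := Big.cube h k1 k3 k2
    exact ⟨_, _, _, Or.inl ⟨c2, rfl, rfl⟩, Or.inl ⟨c1, rfl, e _ _ _⟩, Or.inr ⟨k1, rfl, rfl⟩⟩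
  · exact (Big.acyc h k1 k2 k3).elim
  · obtain ⟨c1, c2⟩ := Big.cube h k3 k1 k2
    exact ⟨_, _, _, Or.inl ⟨k3, rfl, rfl⟩, Or.inr ⟨c1, rfl, rfl⟩, Or.inr ⟨c2, rfl, (e _ _ _).symm⟩⟩
  · obtain ⟨c1, c2⟩ := Big.cube h k3 k2 k1
    exact ⟨_, _, _, Or.inr ⟨k3, rfl, rfl⟩, Or.inr ⟨c2, rfl, rfl⟩, Or.inr ⟨c1, rfl, e _ _ _⟩⟩

theorem Sq.lets {N : ℕ} {A : Set Γ} (h : O.Term A) {a b c d : Γ} (h1 : O.Sq N A a b c d) :
    O.Let N A b ∧ O.Let N A d := by
  rcases h1 with ⟨k1, rfl, rfl⟩ | ⟨k1, rfl, rfl⟩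
  · exact ⟨(k1.rot.lets h).2, (k1.lets h).1⟩
  · exact ⟨(k1.lets h).1, (k1.rot.lets h).2⟩

theorem Sq.mul {N : ℕ} {A : Set Γ} {a b c d : Γ} (h1 : O.Sq N A a b c d) : a * b = c * d := by
  rcases h1 with ⟨-, rfl, rfl⟩ | ⟨-, rfl, rfl⟩ <;> simp only [cj] <;> group

theorem Sq.le {N M : ℕ} {A : Set Γ} (h : O.Term A) (hM : N ≤ M) {a b c d : Γ}
    (h1 : O.Sq N A a b c d) : O.Sq M A a b c d :=
  h1.imp (fun k => ⟨k.1.le h hM, k.2⟩) fun k => ⟨k.1.le h hM, k.2⟩

/-- the square system -/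
def sys (N : ℕ) {A : Set Γ} (h : O.Term A) : SqSys {x : Γ // O.Let N A x} where
  inv e := ⟨e.1⁻¹, e.2.inv⟩
  inv_inv e := Subtype.ext (inv_inv _)
  S a b c d := O.Sq N A a.1 b.1 c.1 d.1
  symm h1 := h1.symm
  rot := by
    rintro a b c d (⟨k1, e1, e2⟩ | ⟨k1, e1, e2⟩)
    · refine Or.inl ⟨?_, by simp [e1], ?_⟩
      · rw [e2]; exact k1.rot
      · simp only [e2, inv_inv, cj_cj_inv]
    · refine Or.inr ⟨?_, e1.symm, ?_⟩
      · rw [e1]; exact k1.inv_right
      · simp only [e1, e2, cj_inv]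
  uniq := by
    rintro a b c d b' d' (⟨k1, e1, e2⟩ | ⟨k1, e1, e2⟩) (⟨k2, e3, e4⟩ | ⟨k2, e3, e4⟩)
    · exact ⟨Subtype.ext (e2.trans e4.symm), Subtype.ext (e1.trans e3.symm)⟩
    · exact (k1.asymm h k2).elim
    · exact (k1.asymm h k2).elim
    · exact ⟨Subtype.ext (e1.trans e3.symm), Subtype.ext (e2.trans e4.symm)⟩
  irrefl := by
    rintro a b c d (⟨k1, -⟩ | ⟨k1, -⟩) rfl <;> exact k1.asymm h k1
  cube h1 h2 h3 := by
    obtain ⟨x, y, z, k1, k2, k3⟩ := Sq.cube h h1 h2 h3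
    exact ⟨⟨x, (k1.lets h).1⟩, ⟨y, (k1.lets h).2⟩, ⟨z, (k2.lets h).2⟩, k1, k2, k3⟩

theorem sys_median (N : ℕ) {A : Set Γ} (h : O.Term A) : MedianGroup (sys N h).G :=
  haveI : Finite {x : Γ // O.Let N A x} := (Let.finite h).to_subtype
  sq_medianGroup _

/-- relators of level `N` -/
def rels (O : COrd Γ) (N : ℕ) (A : Set Γ) : Set (FreeGroup Γ) :=
  {r | (∃ x, O.Let N A x ∧ r = FreeGroup.of x * FreeGroup.of x⁻¹) ∨
    ∃ x y, O.Big N A x y ∧ r = FreeGroup.of x * FreeGroup.of (cj x⁻¹ y) *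
      (FreeGroup.of y * FreeGroup.of x)⁻¹}

theorem rels_le {N M : ℕ} {A : Set Γ} (h : O.Term A) (hM : N ≤ M) : O.rels N A ⊆ O.rels M A := by
  rintro r (⟨x, hx, rfl⟩ | ⟨x, y, hx, rfl⟩)
  · exact Or.inl ⟨x, hx.le h hM, rfl⟩
  · exact Or.inr ⟨x, y, hx.le h hM, rfl⟩

/-- words in the letters of level `N` -/
def words (O : COrd Γ) (N : ℕ) (A : Set Γ) : Subgroup (FreeGroup Γ) :=
  Subgroup.closure (FreeGroup.of '' {x | O.Let N A x})

theorem words_mono {N M : ℕ} {P A : Set Γ} (h : O.Term A) (hP : P ⊆ A) (hM : N ≤ M) :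
    O.words N P ≤ O.words M A :=
  Subgroup.closure_mono (Set.image_mono fun _ hx => (Let.mono h hP hx).le h hM)

theorem words_ev {N : ℕ} {P : Set Γ} {w : FreeGroup Γ} (hw : w ∈ O.words N P) :
    FreeGroup.lift id w ∈ Subgroup.closure P := by
  induction hw using Subgroup.closure_induction with
  | mem _ hx =>
    obtain ⟨x, hx, rfl⟩ := hx
    simpa using Let.mem_closure hx
  | one => simp
  | mul _ _ _ _ h1 h2 => rw [map_mul]; exact mul_mem h1 h2
  | inv _ _ h1 => rw [map_inv]; exact inv_mem h1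

/-- the union of the normal closures -/
def ker (O : COrd Γ) {A : Set Γ} (h : O.Term A) : Subgroup (FreeGroup Γ) where
  carrier := {w | ∃ N, w ∈ Subgroup.normalClosure (O.rels N A)}
  one_mem' := ⟨0, one_mem _⟩
  mul_mem' := by
    rintro a b ⟨N, ha⟩ ⟨M, hb⟩
    exact ⟨max N M, mul_mem (Subgroup.normalClosure_mono (rels_le h (le_max_left _ _)) ha)
      (Subgroup.normalClosure_mono (rels_le h (le_max_right _ _)) hb)⟩
  inv_mem' := by
    rintro a ⟨N, ha⟩
    exact ⟨N, inv_mem ha⟩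

instance ker_normal {A : Set Γ} (h : O.Term A) : (O.ker h).Normal :=
  ⟨fun _ ⟨N, ha⟩ g => ⟨N, Subgroup.normalClosure_normal.conj_mem _ ha g⟩⟩

theorem ker_ev {A : Set Γ} (h : O.Term A) {w : FreeGroup Γ} (hw : w ∈ O.ker h) :
    FreeGroup.lift id w = 1 := by
  obtain ⟨N, hw⟩ := hw
  refine (Subgroup.normalClosure_le_normal (N := (FreeGroup.lift (id : Γ → Γ)).ker) ?_) hw
  rintro r (⟨x, hx, rfl⟩ | ⟨x, y, hx, rfl⟩)
  · simp
  · simp [cj, mul_assoc]

theorem mem_ker {A : Set Γ} (h : O.Term A) : ∀ (N : ℕ) (w : FreeGroup Γ), w ∈ O.words N A →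
    FreeGroup.lift id w = 1 → w ∈ O.ker h := by
  induction h with
  | empty =>
    intro N w hw _
    have : O.words N ∅ = ⊥ := by simp [words, Let.not_empty]
    rw [this, Subgroup.mem_bot] at hw
    rw [hw]; exact one_mem _
  | @step A c ht h3 h4 hT ih =>
    intro N w hw h1
    set h : O.Term A := Term.step ht h3 h4 hT
    let q := QuotientGroup.mk' (O.ker h)
    let C := q (FreeGroup.of c)
    have hq : ∀ {a b : FreeGroup Γ}, a * b⁻¹ ∈ O.ker h → q a = q b := by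
      intro a b hab
      rw [← mul_inv_eq_one, ← map_inv, ← map_mul]
      exact (QuotientGroup.eq_one_iff _).2 hab
    have hmono : ∀ {M M' : ℕ}, M ≤ M' →
        O.words M (infl c A (M + 1)) ≤ O.words M' (infl c A (M' + 1)) :=
      fun hM => words_mono (hT _) (infl_mono le_rfl (by omega)) hM
    let K : Subgroup (FreeGroup Γ ⧸ O.ker h) :=
      { carrier := {g | ∃ M, ∃ k ∈ O.words M (infl c A (M + 1)), g = q k}
        one_mem' := ⟨0, 1, one_mem _, (map_one q).symm⟩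
        mul_mem' := by
          rintro _ _ ⟨M, a, ha, rfl⟩ ⟨M', b, hb, rfl⟩
          exact ⟨max M M', a * b, mul_mem (hmono (le_max_left _ _) ha)
            (hmono (le_max_right _ _) hb), (map_mul q a b).symm⟩
        inv_mem' := by
          rintro _ ⟨M, a, ha, rfl⟩
          exact ⟨M, a⁻¹, inv_mem ha, (map_inv q a).symm⟩ }
    have hK : ∀ g ∈ K, C * g * C⁻¹ ∈ K := by
      rintro _ ⟨M, k, hk, rfl⟩
      induction hk using Subgroup.closure_induction with
      | mem _ hx =>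
        obtain ⟨y, hy, rfl⟩ := hx
        have hy1 : O.Let (M + 1) (infl c A (M + 1)) y := Let.succ (hT _) hy
        refine ⟨M + 1, FreeGroup.of (cj c y), Subgroup.subset_closure ⟨_, hy1.up1 hT, rfl⟩, ?_⟩
        have : q (FreeGroup.of c * FreeGroup.of y) = q (FreeGroup.of (cj c y) * FreeGroup.of c) :=
          hq ⟨M + 1, Subgroup.subset_normalClosure
            (Or.inr ⟨c, cj c y, Big.pos ht hy1, by rw [cj_inv_cj]⟩)⟩
        rw [map_mul, map_mul] at this
        rw [mul_inv_eq_iff_eq_mul]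
        exact this
      | one => simp
      | mul a b _ _ h1 h2 =>
        have e : C * q (a * b) * C⁻¹ = C * q a * C⁻¹ * (C * q b * C⁻¹) := by
          rw [map_mul]; group
        rw [e]; exact mul_mem h1 h2
      | inv a _ h1 =>
        have e : C * q a⁻¹ * C⁻¹ = (C * q a * C⁻¹)⁻¹ := by rw [map_inv]; group
        rw [e]; exact inv_mem h1
    have hK' : ∀ (n : ℕ), ∀ g ∈ K, C ^ n * g * (C ^ n)⁻¹ ∈ K := by
      intro n
      induction n with
      | zero => intro g hg; simpa using hg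
      | succ n ih =>
        intro g hg
        have e : C ^ (n + 1) * g * (C ^ (n + 1))⁻¹ = C * (C ^ n * g * (C ^ n)⁻¹) * C⁻¹ := by
          group
        rw [e]; exact hK _ (ih g hg)
    have hnf : ∃ i j : ℕ, ∃ g ∈ K, q w = (C ^ i)⁻¹ * g * C ^ j := by
      clear h1
      induction hw using Subgroup.closure_induction with
      | mem _ hx =>
        obtain ⟨y, hy, rfl⟩ := hx
        rcases Let.cases ht hy with rfl | rfl | h5
        · exact ⟨0, 1, 1, one_mem _, by simp [C]⟩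
        · refine ⟨1, 0, 1, one_mem _, ?_⟩
          have : q (FreeGroup.of c * FreeGroup.of c⁻¹) = q 1 :=
            hq ⟨0, Subgroup.subset_normalClosure (Or.inl ⟨c, Let.pos ht, by simp⟩)⟩
          rw [map_mul, map_one] at this
          simpa using eq_inv_of_mul_eq_one_right this
        · exact ⟨0, 0, _, ⟨N, _, Subgroup.subset_closure ⟨y, h5, rfl⟩, rfl⟩, by simp⟩
      | one => exact ⟨0, 0, 1, one_mem _, by simp⟩
      | mul a b _ _ h1 h2 =>
        obtain ⟨i, j, g, hg, e1⟩ := h1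
        obtain ⟨i', j', g', hg', e2⟩ := h2
        refine ⟨i + i', j + j', _, mul_mem (hK' i' g hg) (hK' j g' hg'), ?_⟩
        rw [map_mul, e1, e2]
        group
      | inv a _ h1 =>
        obtain ⟨i, j, g, hg, e1⟩ := h1
        refine ⟨j, i, g⁻¹, inv_mem hg, ?_⟩
        rw [map_inv, e1]
        group
    obtain ⟨i, j, _, ⟨M, k, hk, rfl⟩, e⟩ := hnf
    have e1 : q w = q ((FreeGroup.of c ^ i)⁻¹ * k * FreeGroup.of c ^ j) := by
      rw [e]; simp [C]
    have e2 : w * ((FreeGroup.of c ^ i)⁻¹ * k * FreeGroup.of c ^ j)⁻¹ ∈ O.ker h := by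
      rw [← QuotientGroup.eq_one_iff]
      change q _ = 1
      rw [map_mul, map_inv, e1, mul_inv_cancel]
    have e3 := ker_ev h e2
    simp only [map_mul, map_inv, h1, map_pow, FreeGroup.lift_apply_of, id, one_mul,
      inv_eq_one] at e3
    have e4 : FreeGroup.lift id k = c ^ ((i : ℤ) - j) := by
      have : FreeGroup.lift id k = c ^ i * ((c ^ i)⁻¹ * FreeGroup.lift id k * c ^ j) * (c ^ j)⁻¹ := by
        group
      rw [this, e3]; group
    have e5 := h3 (M + 1) _ (e4 ▸ words_ev hk)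
    rw [e5, zpow_zero] at e4
    obtain ⟨M', hM'⟩ := ih _ M k hk e4
    have e6 : k ∈ O.ker h := by
      refine ⟨max M M', Subgroup.normalClosure_mono ?_ hM'⟩
      have hs : infl c A (M + 1) ⊆ infl c A (max M M' + 1) :=
        infl_mono le_rfl (by have := le_max_left M M'; omega)
      rintro r (⟨x, hx, rfl⟩ | ⟨x, y, hx, rfl⟩)
      · exact Or.inl ⟨x, Let.step ht ((Let.mono (hT _) hs hx).le (hT _) (le_max_right _ _)), rfl⟩
      · exact Or.inr ⟨x, y, Big.step ht ((Big.mono (hT _) hs hx).le (hT _) (le_max_right _ _)),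
          rfl⟩
    have e7 : q k = 1 := (QuotientGroup.eq_one_iff _).2 e6
    obtain rfl : i = j := by omega
    rw [e7] at e
    have e8 : q w = 1 := by rw [e]; simp
    exact (QuotientGroup.eq_one_iff _).1 e8

/-- transition maps -/
noncomputable def trans {A : Set Γ} (h : O.Term A) (i j : ℕ) (hij : i ≤ j) :
    (sys i h).G →* (sys j h).G :=
  SqSys.liftG (fun e => (sys j h).gen ⟨e.1, e.2.le h hij⟩)
    (fun e => SqSys.gen_mul_inv (X := sys j h) ⟨e.1, e.2.le h hij⟩)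
    fun _ _ _ _ hS => SqSys.gen_sq (X := sys j h) (Sq.le h hij hS)

/-- evaluation -/
noncomputable def evS {A : Set Γ} (h : O.Term A) (i : ℕ) : (sys i h).G →* Subgroup.closure A :=
  SqSys.liftG (fun e => ⟨e.1, e.2.mem_closure⟩) (fun e => Subtype.ext (mul_inv_cancel e.1))
    fun _ _ _ _ hS => Subtype.ext (Sq.mul hS)

theorem evS_trans {A : Set Γ} (h : O.Term A) (i j : ℕ) (hij : i ≤ j) (x : (sys i h).G) :
    evS h j (trans h i j hij x) = evS h i x := by
  have : (evS h j).comp (trans h i j hij) = evS h i :=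
    SqSys.hom_ext fun e => by simp [evS, trans]
  exact DFunLike.congr_fun this x

theorem evS_surj {A : Set Γ} (h : O.Term A) (i : ℕ) : Function.Surjective (evS h i) := by
  rintro ⟨x, hx⟩
  induction hx using Subgroup.closure_induction with
  | mem x hx => exact ⟨(sys i h).gen ⟨x, Let.self h hx⟩, by simp [evS]⟩
  | one => exact ⟨1, map_one _⟩
  | mul a b _ _ h1 h2 =>
    obtain ⟨u, hu⟩ := h1
    obtain ⟨v, hv⟩ := h2
    exact ⟨u * v, by rw [map_mul, hu, hv]; rfl⟩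
  | inv a _ h1 =>
    obtain ⟨u, hu⟩ := h1
    exact ⟨u⁻¹, by rw [map_inv, hu]; rfl⟩

open Classical in
theorem evS_ker {A : Set Γ} (h : O.Term A) (i : ℕ) (x : (sys i h).G) (hx : evS h i x = 1) :
    ∃ j hij, trans h i j hij x = 1 := by
  obtain ⟨w, rfl⟩ := PresentedGroup.mk_surjective _ x
  let ι : FreeGroup {x : Γ // O.Let i A x} →* FreeGroup Γ := FreeGroup.map Subtype.val
  have h1 : ι w ∈ O.words i A := by
    clear hx
    induction w using FreeGroup.induction_on with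
    | C1 => simp
    | of e => exact Subgroup.subset_closure ⟨e.1, e.2, by simp [ι]⟩
    | inv_of e ih => rw [map_inv]; exact inv_mem ih
    | mul a b h1 h2 => rw [map_mul]; exact mul_mem h1 h2
  have h2 : (FreeGroup.lift id).comp ι =
      (Subgroup.closure A).subtype.comp ((evS h i).comp (PresentedGroup.mk _)) := by
    ext e
    have := SqSys.liftG_gen (X := sys i h) (fun e => (⟨e.1, e.2.mem_closure⟩ : Subgroup.closure A))
      (fun e => Subtype.ext (mul_inv_cancel e.1)) (fun _ _ _ _ hS => Subtype.ext (Sq.mul hS)) e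
    simp only [MonoidHom.comp_apply, ι, FreeGroup.map.of, FreeGroup.lift_apply_of, id]
    exact (congrArg Subtype.val this).symm
  have h3 : FreeGroup.lift id (ι w) = 1 := by
    have := DFunLike.congr_fun h2 w
    simp only [MonoidHom.comp_apply] at this
    rw [this, hx]; rfl
  obtain ⟨M, hM⟩ := mem_ker h i _ h1 h3
  let j := max i M
  let ρ : FreeGroup Γ →* (sys j h).G :=
    FreeGroup.lift fun x => if hx : O.Let j A x then (sys j h).gen ⟨x, hx⟩ else 1
  have hρ : ∀ x (hx : O.Let j A x), ρ (FreeGroup.of x) = (sys j h).gen ⟨x, hx⟩ := by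
    intro x hx
    simp [ρ, hx]
  have h4 : ρ (ι w) = 1 := by
    refine (Subgroup.normalClosure_le_normal (N := ρ.ker) ?_)
      (Subgroup.normalClosure_mono (rels_le h (le_max_right i M)) hM)
    rintro r (⟨x, hx, rfl⟩ | ⟨x, y, hx, rfl⟩)
    · change ρ _ = 1
      rw [map_mul, hρ x hx, hρ _ hx.inv]
      exact SqSys.gen_mul_inv (X := sys j h) ⟨x, hx⟩
    · change ρ _ = 1
      rw [map_mul, map_inv, map_mul, map_mul, hρ x (hx.lets h).1, hρ y (hx.lets h).2,
        hρ _ (hx.rot.lets h).2, mul_inv_eq_one]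
      exact SqSys.gen_sq (X := sys j h) (Or.inl ⟨hx, rfl, rfl⟩)
  refine ⟨j, le_max_left _ _, ?_⟩
  have h5 : ρ.comp ι = (trans h i j (le_max_left _ _)).comp (PresentedGroup.mk _) := by
    ext e
    simp only [MonoidHom.comp_apply, ι, FreeGroup.map.of]
    rw [hρ _ (e.2.le h (le_max_left _ _))]
    change _ = trans h i j (le_max_left _ _) ((sys i h).gen e)
    simp [trans]
  have := DFunLike.congr_fun h5 w
  simp only [MonoidHom.comp_apply] at this
  rw [← this, h4]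

theorem Term.colimit {A : Set Γ} (h : O.Term A) : MedianColimit (Subgroup.closure A) := by
  refine ⟨fun n => (sys n h).G, inferInstance, trans h, evS h, fun n => sys_median n h,
    fun i hi x => ?_, fun i j k hij hjk hik x => ?_, evS_trans h, evS_surj h, evS_ker h⟩
  · have : trans h i i hi = MonoidHom.id _ := SqSys.hom_ext fun e => by simp [trans]
    rw [this]; rfl
  · have : (trans h j k hjk).comp (trans h i j hij) = trans h i k hik :=
      SqSys.hom_ext fun e => by simp [trans]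
    exact DFunLike.congr_fun this x

end COrd
end Pool.Agent.Lib.MP_63c928_gt
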