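import Pool.Agent.Lib.MP_63c928_gt.Geom
import Pool.Agent.Lib.MP_63c928_gt.Sys

namespace Pool.Agent.Lib.MP_63c928_gt

variable {α : Type} [LinearOrder α]

/-- comparison of the right ends of the supports -/
def ordAut (α : Type) [LinearOrder α] : COrd (α ≃o α) where
  lt b c := ∃ x, c x ≠ x ∧ ∀ y, x ≤ y → b y = y
  asymm := by
    rintro a b ⟨x, h1, h2⟩ ⟨x', h3, h4⟩
    rcases le_total x x' with h | h
    · exact h3 (h2 _ h)
    · exact h1 (h4 _ h)
  conj := by
    rintro g a b ⟨x, h1, h2⟩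
    refine ⟨g x, fun h => h1 ?_, fun y hy => ?_⟩
    · rw [cj, mul_ap, mul_ap, inv_ap] at h
      exact g.injective h
    · obtain ⟨w, rfl⟩ := g.surjective y
      rw [cj, mul_ap, mul_ap, inv_ap, h2 w (g.le_iff_le.1 hy)]

namespace Cl

theorem last_pow (c : Cl α) {z : α} (h : c.pos z = 2 * c.r + 1) (k : ℕ) :
    c.pos ((c.f ^ k) z) = 2 * c.r + 1 := by
  induction k with
  | zero => exact h
  | succ k ih => rw [pow_succ', mul_ap]; exact (c.last _ ih).2

theorem pos_key (c : Cl α) : c.pos (c.q c.r) = 2 * c.r + 1 := by rw [c.pos_q]; omega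

theorem fix_of_lt {b c : Cl α} (hF : Fast b c) (h : key b < key c) {z : α}
    (hz : 2 * c.r + 1 ≤ c.pos z) : b.f z = z := by
  refine b.fix z (Or.inr ?_)
  have h1 := hF.lt_q h
  have h2 := hF.symm.q_lt h le_rfl
  have h3 := b.le z
  have h4 := b.pos_key
  have h5 := b.pos_le (c.lt_of_pos (z := b.q b.r) (w := z) (by omega))
  by_contra h6
  have h7 := hF z
  have h8 := c.pos_key
  have := b.pos_le (c.lt_of_pos (z := c.q c.r) (w := z) (by omega))
  omega

theorem lt_of_key {b c : Cl α} (hF : Fast b c) (h : key b < key c) : (ordAut α).lt b.f c.f :=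
  ⟨c.q c.r, (c.last _ c.pos_key).1.ne', fun _ hy =>
    fix_of_lt hF h (c.pos_key.ge.trans (c.mono hy))⟩

theorem zpow_eq_zero {c : α ≃o α} {z : α} (h : z < c z) {j : ℤ} (hj : (c ^ j) z = z) : j = 0 := by
  have : StrictMono fun n : ℤ => (c ^ n) z := strictMono_int_of_lt_succ fun n => by
    rw [zpow_add_one, mul_ap]
    exact (c ^ n).strictMono h
  exact this.injective (by simpa [one_ap] using hj)

theorem Osc.zero_or {a b : Cl α} {k l n : ℕ} (h : Osc a k b l n) (hb : 2 * l ≤ b.r) :
    a.r < 2 * k ∨ a.q (a.r - k) < b.q (b.r - l) := by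
  by_cases ha : a.r < 2 * k
  · exact Or.inl ha
  · exact Or.inr (h.hi_lt (by omega) hb)

theorem term_of_T {W : Set (Cl α)} (h : (hyd α).T W) :
    Good W → (ordAut α).Term (Cl.f '' W) := by
  induction h with
  | @mk W _ ih =>
    intro hG
    rcases W.eq_empty_or_nonempty with rfl | hne
    · rw [Set.image_empty]; exact COrd.Term.empty
    obtain ⟨c, hc⟩ := Hyd.exists_top (H := hyd α) hG hne
    have hk : ∀ b ∈ W, b ≠ c → key b < key c := hc.2
    have hF : ∀ b ∈ W, b ≠ c → Fast b c := fun b hb e => (hG.2 b hb c hc.1 e).1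
    have hlt : ∀ b ∈ W, b ≠ c → (ordAut α).lt b.f c.f :=
      fun b hb e => lt_of_key (hF b hb e) (hk b hb e)
    have hne' : ∀ b ∈ W, b ≠ c → b.f ≠ c.f := by
      intro b hb e e'
      have := hlt b hb e
      rw [e'] at this
      exact (ordAut α).asymm this this
    refine COrd.Term.step (c := c.f) ⟨⟨c, hc.1, rfl⟩, ?_⟩ ?_ ?_ fun m => ?_
    · rintro _ ⟨b, hb, rfl⟩ e
      exact hlt b hb fun e' => e (by rw [e'])
    · intro m j hj
      have h1 := c.last_pow c.pos_key m
      refine zpow_eq_zero (c.last _ h1).1 ?_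
      generalize c.f ^ j = g at hj
      induction hj using Subgroup.closure_induction with
      | mem _ hx =>
        obtain ⟨_, ⟨b, hb, rfl⟩, e, k, hk', rfl⟩ := hx
        obtain ⟨d, rfl⟩ : ∃ d, m = k + d := ⟨m - k, by omega⟩
        have e' : b ≠ c := fun e' => e (by rw [e'])
        rw [cj, pow_add, mul_ap, mul_ap, mul_ap, inv_ap,
          fix_of_lt (hF b hb e') (hk b hb e') (c.last_pow c.pos_key d).ge]
      | one => rfl
      | mul _ _ _ _ h1 h2 => rw [mul_ap, h2, h1]
      | inv g _ h1 => rw [← h1, inv_ap, h1]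
    · rintro _ ⟨b, hb, rfl⟩ _ ⟨b', hb', rfl⟩ e e' j hj h
      have e1 : b ≠ c := fun e' => e (by rw [e'])
      have e2 : b' ≠ c := fun e => e' (by rw [e])
      obtain ⟨k1, k2⟩ := hG.osc hb hc.1 (hk b hb e1)
      generalize o b c = n at k2
      rcases n with _ | n
      · exact congrArg Cl.f (smul_eq_of_left k1 k2)
      exfalso
      obtain ⟨-, -, a1, a2, a3⟩ := k2.succ
      have b1 := k1.lt_q a2
      have b2 := k1.q_lt a1 (by omega)
      have b3 := c.mono (b.lohi (k := 0) (by omega))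
      have b4 := c.dyn hj (k1.even (b.r - 0))
      have b5 : c.pos ((c.f ^ j) (b.q (b.r - 0))) = 2 * c.r + 1 := by
        have := c.r_pos
        rcases a3.zero_or (by omega) with h | h
        · omega
        · have := k1.q_lt h (by omega)
          omega
      have b6 := fix_of_lt (hF b' hb' e2) (hk b' hb' e2) b5.ge
      rw [← h, cj, mul_ap, mul_ap, inv_ap] at b6
      exact (b.last _ b.pos_key).1.ne' ((c.f ^ j).injective b6)
    · have e : infl c.f (Cl.f '' W) m = Cl.f '' inflM c.f c W m := by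
        ext x
        constructor
        · rintro ⟨_, ⟨b, hb, rfl⟩, e, k, hk', rfl⟩
          exact ⟨_, ⟨b, hb, fun e' => e (by rw [e']), k, hk', rfl⟩, rfl⟩
        · rintro ⟨_, ⟨b, hb, e, k, hk', rfl⟩, rfl⟩
          exact ⟨_, ⟨b, hb, rfl⟩, hne' b hb e, k, hk', rfl⟩
      rw [e]
      exact ih c hc m (hG.infl hc.1 hk m)

theorem Good.colimit {W : Set (Cl α)} (h : Good W) :
    MedianColimit (Subgroup.closure (Cl.f '' W)) :=
  (term_of_T (Hyd.terminates (H := hyd α) h) h).colimit

end Cl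
end Pool.Agent.Lib.MP_63c928_gt
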