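import Pool.Agent.Lib.MP_63c928_gt.Link

namespace Pool.Agent.Lib.MP_63c928_gt

variable {α : Type} [LinearOrder α]

namespace StdFun
variable (a : StdFun α)

def u (i : ℕ) : α := max (a.f (a.s i)) (a.f.symm (a.s i))

def v (i : ℕ) : α := min (a.f (a.s i)) (a.f.symm (a.s i))

theorem t_lt {i : ℕ} (h : i < a.r) : a.t i < a.t (i + 1) := (a.mark i h).1.trans (a.mark i h).2

theorem f_mem {i : ℕ} (h : i < a.r) {x : α} (h1 : a.t i < x) (h2 : x < a.t (i + 1)) :
    a.t i < a.f x ∧ a.f x < a.t (i + 1) := by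
  constructor
  · have := a.f.strictMono h1
    rwa [a.fix_t i h.le] at this
  · have := a.f.strictMono h2
    rwa [a.fix_t (i + 1) h] at this

theorem symm_mem {i : ℕ} (h : i < a.r) {x : α} (h1 : a.t i < x) (h2 : x < a.t (i + 1)) :
    a.t i < a.f.symm x ∧ a.f.symm x < a.t (i + 1) := by
  constructor
  · rw [← a.f.lt_iff_lt, a.fix_t i h.le, a.f.apply_symm_apply]; exact h1
  · rw [← a.f.lt_iff_lt, a.fix_t (i + 1) h, a.f.apply_symm_apply]; exact h2

theorem neg_s {i : ℕ} (h : i < a.r / 2) : a.f (a.s i) < a.s i ∧ a.s i < a.f.symm (a.s i) := by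
  have h1 := a.mark i (by omega)
  have h2 := a.neg i h _ h1.1 h1.2
  exact ⟨h2, by rw [← a.f.lt_iff_lt, a.f.apply_symm_apply]; exact h2⟩

theorem pos_s {i : ℕ} (h : i < a.r) (h' : a.r / 2 ≤ i) :
    a.s i < a.f (a.s i) ∧ a.f.symm (a.s i) < a.s i := by
  have h1 := a.mark i h
  have h2 := a.pos i h h' _ h1.1 h1.2
  exact ⟨h2, by rw [← a.f.lt_iff_lt, a.f.apply_symm_apply]; exact h2⟩

theorem chain {i : ℕ} (h : i < a.r) :
    a.t i < a.v i ∧ a.v i < a.s i ∧ a.s i < a.u i ∧ a.u i < a.t (i + 1) := by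
  have h1 := a.mark i h
  have h2 := a.f_mem h h1.1 h1.2
  have h3 := a.symm_mem h h1.1 h1.2
  refine ⟨lt_min h2.1 h3.1, ?_, ?_, max_lt h2.2 h3.2⟩
  · by_cases h4 : i < a.r / 2
    · exact min_lt_of_left_lt (a.neg_s h4).1
    · exact min_lt_of_right_lt (a.pos_s h (by omega)).2
  · by_cases h4 : i < a.r / 2
    · exact lt_max_of_lt_right (a.neg_s h4).2
    · exact lt_max_of_lt_left (a.pos_s h (by omega)).1

def thr (z : α) (k : ℕ) : Prop :=
  (k = 1 → a.t 0 < z) ∧ (k = 2 * a.r + 2 → a.t a.r ≤ z) ∧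
    ∀ i < a.r, (k = 2 * i + 2 → a.s i ≤ z) ∧ (k = 2 * i + 3 → a.u i ≤ z)

theorem thr_one {z : α} : a.thr z 1 ↔ a.t 0 < z :=
  ⟨fun h => h.1 rfl, fun h => ⟨fun _ => h, by omega, fun i _ => ⟨by omega, by omega⟩⟩⟩

theorem thr_last {z : α} : a.thr z (2 * a.r + 2) ↔ a.t a.r ≤ z :=
  ⟨fun h => h.2.1 rfl, fun h => ⟨by omega, fun _ => h, fun i _ => ⟨by omega, by omega⟩⟩⟩

theorem thr_s {z : α} {i : ℕ} (hi : i < a.r) : a.thr z (2 * i + 2) ↔ a.s i ≤ z :=
  ⟨fun h => (h.2.2 i hi).1 rfl, fun h => ⟨by omega, by omega, fun j _ =>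
    ⟨fun e => by obtain rfl : i = j := by omega
                 exact h, by omega⟩⟩⟩

theorem thr_u {z : α} {i : ℕ} (hi : i < a.r) : a.thr z (2 * i + 3) ↔ a.u i ≤ z :=
  ⟨fun h => (h.2.2 i hi).2 rfl, fun h => ⟨by omega, by omega, fun j _ =>
    ⟨by omega, fun e => by obtain rfl : i = j := by omega
                           exact h⟩⟩⟩

theorem thr_pred {z : α} {k : ℕ} (hk : k + 1 ≤ 2 * a.r + 2) (h : a.thr z (k + 1)) : a.thr z k := by
  have hr := a.r_pos
  refine ⟨?_, by omega, fun i hi => ⟨?_, ?_⟩⟩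
  · rintro rfl
    exact (a.mark 0 hr).1.trans_le ((a.thr_s hr).1 h)
  · rintro rfl
    exact (a.chain hi).2.2.1.le.trans ((a.thr_u hi).1 h)
  · rintro rfl
    refine (a.chain hi).2.2.2.le.trans ?_
    by_cases h1 : i + 1 < a.r
    · exact (a.mark _ h1).1.le.trans ((a.thr_s h1).1 h)
    · have e : i + 1 = a.r := by omega
      rw [e]
      exact h.2.1 (by omega)

open Classical in
noncomputable def ps (z : α) : ℕ := Nat.findGreatest (a.thr z) (2 * a.r + 2)

theorem ps_le (z : α) : a.ps z ≤ 2 * a.r + 2 := by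
  classical exact Nat.findGreatest_le _

theorem le_ps {z : α} {k : ℕ} (hk : k ≤ 2 * a.r + 2) : k ≤ a.ps z ↔ a.thr z k := by
  classical
  refine ⟨fun h => ?_, fun h => Nat.le_findGreatest hk h⟩
  have h0 : a.thr z 0 := ⟨by omega, by omega, fun i _ => ⟨by omega, by omega⟩⟩
  have h1 : a.thr z (a.ps z) := Nat.findGreatest_spec (Nat.zero_le _) h0
  have h2 := a.ps_le z
  generalize a.ps z = n at h h1 h2
  induction h with
  | refl => exact h1
  | step _ ih => exact ih (a.thr_pred h2 h1) (by omega)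

theorem p1 {z : α} : 1 ≤ a.ps z ↔ a.t 0 < z := (a.le_ps (by omega)).trans a.thr_one

theorem p2 {z : α} {i : ℕ} (hi : i < a.r) : 2 * i + 2 ≤ a.ps z ↔ a.s i ≤ z :=
  (a.le_ps (by omega)).trans (a.thr_s hi)

theorem p3 {z : α} {i : ℕ} (hi : i < a.r) : 2 * i + 3 ≤ a.ps z ↔ a.u i ≤ z :=
  (a.le_ps (by omega)).trans (a.thr_u hi)

theorem p4 {z : α} : 2 * a.r + 2 ≤ a.ps z ↔ a.t a.r ≤ z := (a.le_ps le_rfl).trans a.thr_last

theorem ps_mono : Monotone a.ps := by
  intro z w h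
  rw [a.le_ps (a.ps_le z)]
  obtain ⟨h1, h2, h3⟩ := (a.le_ps (a.ps_le z)).1 le_rfl
  exact ⟨fun e => (h1 e).trans_le h, fun e => (h2 e).trans h, fun i hi =>
    ⟨fun e => ((h3 i hi).1 e).trans h, fun e => ((h3 i hi).2 e).trans h⟩⟩

theorem ps_left {z : α} {i : ℕ} (hi : i < a.r) (h1 : a.t i < z) (h2 : z < a.s i) :
    a.ps z = 2 * i + 1 := by
  have h3 := (a.p2 (z := z) hi).not.2 (not_le.2 h2)
  rcases i with _ | i
  · have := a.p1.2 h1
    omega
  · have := (a.p3 (by omega : i < a.r)).2 ((a.chain (by omega)).2.2.2.trans h1).le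
    omega

theorem ps_right {z : α} {i : ℕ} (hi : i < a.r) (h1 : a.u i ≤ z) (h2 : z < a.t (i + 1)) :
    a.ps z = 2 * i + 3 := by
  have h3 := (a.p3 hi).2 h1
  by_cases h4 : i + 1 < a.r
  · have := (a.p2 (z := z) h4).not.2 (not_le.2 (h2.trans (a.mark _ h4).1))
    omega
  · have e : i + 1 = a.r := by omega
    rw [e] at h2
    have := (a.p4 (z := z)).not.2 (not_le.2 h2)
    omega

theorem ps_t {i : ℕ} (h0 : 0 < i) (hi : i < a.r) : a.ps (a.t i) = 2 * i + 1 := by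
  obtain ⟨i, rfl⟩ : ∃ j, i = j + 1 := ⟨i - 1, by omega⟩
  have h1 := (a.p3 (by omega : i < a.r)).2 (a.chain (by omega)).2.2.2.le
  have := (a.p2 (z := a.t (i + 1)) hi).not.2 (not_le.2 (a.mark _ hi).1)
  omega

theorem ps_u {i : ℕ} (hi : i < a.r) : a.ps (a.u i) = 2 * i + 3 :=
  a.ps_right hi le_rfl (a.chain hi).2.2.2

theorem ps_v {i : ℕ} (hi : i < a.r) : a.ps (a.v i) = 2 * i + 1 :=
  a.ps_left hi (a.chain hi).1 (a.chain hi).2.1

noncomputable def cl : Cl α where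
  f := a.f
  r := a.r
  pos := a.ps
  q j := if j = 0 then a.v 0 else if j < a.r then a.t j else a.u (a.r - 1)
  r_pos := a.r_pos
  mono := a.ps_mono
  le := a.ps_le
  pos_q j := by
    have hr := a.r_pos
    split_ifs with h1 h2
    · rw [a.ps_v hr]; omega
    · rw [a.ps_t (by omega) h2]; omega
    · rw [a.ps_u (by omega)]; omega
  fix z h := a.fix_out z (h.imp (fun h => not_lt.1 (a.p1.not.1 (by omega))) fun h => a.p4.1 h.ge)
  dneg i hi z h k hk := by
    have hi' : i < a.r := by omega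
    obtain ⟨c1, c2, c3, c4⟩ := a.chain hi'
    have e : a.u i = a.f.symm (a.s i) := max_eq_right ((a.neg_s hi).1.trans (a.neg_s hi).2).le
    have step : ∀ w, a.t i < w → w < a.u i → a.t i < a.f w ∧ a.f w < a.s i := by
      intro w h1 h2
      refine ⟨(a.f_mem hi' h1 (h2.trans c4)).1, ?_⟩
      have := a.f.strictMono h2
      rwa [e, a.f.apply_symm_apply] at this
    have key : ∀ k : ℕ, a.t i < (a.f ^ (k + 1)) z ∧ (a.f ^ (k + 1)) z < a.s i := by
      intro k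
      induction k with
      | zero =>
        exact step z ((a.mark i hi').1.trans_le ((a.p2 hi').1 h.ge))
          (not_le.1 ((a.p3 hi').not.1 (by omega)))
      | succ k ih => rw [pow_succ', mul_ap]; exact step _ ih.1 (ih.2.trans c3)
    obtain ⟨k, rfl⟩ : ∃ j, k = j + 1 := ⟨k - 1, by omega⟩
    exact a.ps_left hi' (key k).1 (key k).2
  dpos i hi hi' z h k hk := by
    obtain ⟨c1, c2, c3, c4⟩ := a.chain hi
    have e : a.u i = a.f (a.s i) := max_eq_left ((a.pos_s hi hi').2.trans (a.pos_s hi hi').1).le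
    have step : ∀ w, a.s i ≤ w → w < a.t (i + 1) → a.u i ≤ a.f w ∧ a.f w < a.t (i + 1) := by
      intro w h1 h2
      exact ⟨e ▸ a.f.monotone h1, (a.f_mem hi ((a.mark i hi).1.trans_le h1) h2).2⟩
    have key : ∀ k : ℕ, a.u i ≤ (a.f ^ (k + 1)) z ∧ (a.f ^ (k + 1)) z < a.t (i + 1) := by
      intro k
      induction k with
      | zero =>
        exact step z ((a.p2 hi).1 h.ge) ((not_le.1 ((a.p3 hi).not.1 (by omega))).trans c4)
      | succ k ih => rw [pow_succ', mul_ap]; exact step _ (c3.le.trans ih.1) ih.2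
    obtain ⟨k, rfl⟩ : ∃ j, k = j + 1 := ⟨k - 1, by omega⟩
    exact a.ps_right hi (key k).1 (key k).2
  last z h := by
    have hr := a.r_pos
    obtain ⟨i, hi⟩ : ∃ i, a.r = i + 1 := ⟨a.r - 1, by omega⟩
    have hi' : i < a.r := by omega
    have h1 : a.u i ≤ z := (a.p3 hi').1 (by omega)
    have h2 : z < a.t (i + 1) := hi ▸ not_le.1 (a.p4.not.1 (by omega))
    obtain ⟨c1, c2, c3, c4⟩ := a.chain hi'
    have h3 : a.t i < z := (c1.trans (c2.trans c3)).trans_le h1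
    have h4 := a.pos i hi' (by omega) z h3 h2
    refine ⟨h4, ?_⟩
    rw [a.ps_right hi' (h1.trans h4.le) (a.f_mem hi' h3 h2).2]
    omega

theorem feet_right {z : α} (h : a.ps z % 2 = 1) : ∃ w, z < w ∧ ∀ x, z < x → x < w → x ∈ a.feet := by
  obtain ⟨j, hj⟩ : ∃ j, a.ps z = 2 * j + 1 := ⟨a.ps z / 2, by omega⟩
  have h1 := a.ps_le z
  have hr := a.r_pos
  by_cases h2 : j < a.r ∧ a.t j ≤ z
  · exact ⟨a.s j, not_le.1 ((a.p2 h2.1).not.1 (by omega)), fun x h3 h4 =>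
      ⟨j, h2.1, Or.inl ⟨h2.2.trans_lt h3, h4⟩⟩⟩
  · rcases j with _ | j
    · exact (h2 ⟨hr, (a.p1.1 (by omega)).le⟩).elim
    · have h3 : j < a.r := by omega
      refine ⟨a.t (j + 1), ?_, fun x h4 h5 =>
        ⟨j, h3, Or.inr ⟨((a.p3 h3).1 (by omega)).trans h4.le, h5⟩⟩⟩
      by_cases h4 : j + 1 < a.r
      · exact not_le.1 fun h => h2 ⟨h4, h⟩
      · have e : j + 1 = a.r := by omega
        rw [e]
        exact not_le.1 (a.p4.not.1 (by omega))

variable {a} {b : StdFun α}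

theorem fast_cl [DenselyOrdered α] (h : Disjoint a.feet b.feet) : Cl.Fast a.cl b.cl := by
  intro z
  by_contra h0
  obtain ⟨w, h1, h2⟩ := a.feet_right (z := z) (by change ¬ (a.ps z % 2 = 0 ∨ _) at h0; omega)
  obtain ⟨w', h3, h4⟩ := b.feet_right (z := z)
    (by change ¬ (_ ∨ b.ps z % 2 = 0) at h0; omega)
  obtain ⟨x, h5, h6⟩ := exists_between (lt_min h1 h3)
  exact Set.disjoint_left.1 h (h2 x h5 (h6.trans_le (min_le_left _ _)))
    (h4 x h5 (h6.trans_le (min_le_right _ _)))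

theorem q_lt_q {x y : Cl α} (h : Cl.Fast x y) {i j : ℕ} (hi : i ≤ x.r) (hj : j ≤ y.r) {z w : α}
    (hz : x.pos z = 2 * i + 1) (hw : y.pos w = 2 * j + 1) (hzw : z < w) : x.q i < y.q j := by
  by_contra h1
  have h2 := y.mono (not_lt.1 h1)
  have h3 := x.pos_le hzw
  have h4 := h w
  have h5 := x.pos_q i
  have h6 := y.pos_q j
  have h7 := y.pos_le (x.lt_of_pos (z := x.q i) (w := w) (by omega))
  have h8 := h.even i
  omega

theorem lt_cl [DenselyOrdered α] (h : Cl.Fast a.cl b.cl) {i j : ℕ} (hi : i ≤ a.r) (hj : j ≤ b.r)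
    (h1 : a.t i < b.t j) : a.cl.q i < b.cl.q j := by
  obtain ⟨w, h2, h3⟩ := exists_between h1
  have ha := a.r_pos
  have hb := b.r_pos
  obtain ⟨z, z1, z2⟩ : ∃ z, z < w ∧ a.ps z = 2 * i + 1 := by
    rcases hi.eq_or_lt with e | hi
    · obtain ⟨i, rfl⟩ : ∃ k, i = k + 1 := ⟨i - 1, by omega⟩
      exact ⟨a.u i, (a.chain (by omega)).2.2.2.trans h2, a.ps_u (by omega)⟩
    · obtain ⟨z, z1, z2⟩ := exists_between (lt_min h2 (a.mark i hi).1)
      exact ⟨z, z2.trans_le (min_le_left _ _), a.ps_left hi z1 (z2.trans_le (min_le_right _ _))⟩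
  obtain ⟨z', z3, z4⟩ : ∃ z, w < z ∧ b.ps z = 2 * j + 1 := by
    rcases j with _ | j
    · exact ⟨b.v 0, h3.trans (b.chain hb).1, b.ps_v hb⟩
    · obtain ⟨z, z1, z2⟩ := exists_between (max_lt h3 (b.chain (by omega : j < b.r)).2.2.2)
      exact ⟨z, (le_max_left _ _).trans_lt z1,
        b.ps_right (by omega) ((le_max_right _ _).trans z1.le) z2⟩
  exact q_lt_q h hi hj z2 z4 (z1.trans z3)

theorem le_cl (h : Cl.Fast a.cl b.cl) {i j : ℕ} (h0 : 0 < i) (hi : i ≤ a.r) (hj : j < b.r)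
    (h1 : a.t i ≤ b.t j) : a.cl.q i < b.cl.q j := by
  obtain ⟨i, rfl⟩ : ∃ k, i = k + 1 := ⟨i - 1, by omega⟩
  exact q_lt_q h hi hj.le (a.ps_u (by omega)) (b.ps_v hj)
    (((a.chain (by omega)).2.2.2.trans_le h1).trans (b.chain hj).1)

theorem StdPair.osc [DenselyOrdered α] {x y : StdFun α × ℕ} (h : StdPair x y) :
    Cl.Fast x.1.cl y.1.cl → 2 * y.2 ≤ y.1.r → ∃ n, Cl.Osc x.1.cl x.2 y.1.cl y.2 n := by
  induction h with
  | empty h => exact fun _ _ => ⟨0, Cl.Osc.empty h⟩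
  | @left a b k l h =>
    intro hF hb
    have ha := a.r_pos
    have hb' := b.r_pos
    by_cases h1 : a.r < 2 * k
    · exact ⟨0, Cl.Osc.empty h1⟩
    · simp only at hb
      exact ⟨0, Cl.Osc.left (le_cl (a := a) (b := b) (i := a.r - k) (j := l) hF (by omega)
        (by omega) (by omega) h)⟩
  | @nest a b k l h1 h2 h3 h4 _ ih =>
    intro hF _
    obtain ⟨n, hn⟩ := ih hF.symm h1
    exact ⟨n + 1, Cl.Osc.nest h1 h2
      (lt_cl (a := b) (b := a) (i := l) (j := k) hF.symm (by omega) (by omega) h3)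
      (lt_cl (a := a) (b := b) (i := a.r - k) (j := b.r - l) hF (by omega) (by omega) h4) hn⟩

theorem IsStandard.colimit [DenselyOrdered α] {A : Set (StdFun α)} (h : IsStandard A) :
    MedianColimit (Subgroup.closure (StdFun.f '' A)) := by
  have h1 : Cl.Good (cl '' A) := by
    refine ⟨h.1.image _, ?_⟩
    rintro _ ⟨a, ha, rfl⟩ _ ⟨b, hb, rfl⟩ hne
    obtain ⟨h2, h3⟩ := h.2 a ha b hb fun e => hne (by rw [e])
    have h4 := fast_cl h2
    exact ⟨h4, h3.imp (fun k => k.osc h4 (by simp)) fun k => k.osc h4.symm (by simp)⟩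
  have h2 := h1.colimit
  rwa [Set.image_image] at h2

end StdFun
end Pool.Agent.Lib.MP_63c928_gt
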